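import Mathlib

set_option autoImplicit false

/-!
# The entropy of the convolution of two measures of small entropy on a finite abelian group
-/

namespace Pool.Agent.N903.ZE

open Real Finset

section basic

variable {α : Type*} [Fintype α]

/-- the entropy -/
noncomputable def ent (a : α → ℝ) : ℝ := ∑ x, negMulLog (a x)

/-- the total mass -/
noncomputable def mass (a : α → ℝ) : ℝ := ∑ x, a x

/-- the entropy of the normalised measure, times the mass -/
noncomputable def ee (a : α → ℝ) : ℝ := ent a - negMulLog (mass a)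

theorem ee_eq (a : α → ℝ) : ee a = ∑ x, a x * (log (mass a) - log (a x)) := by
  unfold ee ent
  have h1 : negMulLog (mass a) = ∑ x, -(a x * log (mass a)) := by
    rw [Finset.sum_neg_distrib, ← Finset.sum_mul]
    unfold negMulLog mass
    ring
  rw [h1, ← Finset.sum_sub_distrib]
  apply Finset.sum_congr rfl
  intro x _
  unfold negMulLog
  ring

theorem mass_nonneg {a : α → ℝ} (h : ∀ x, 0 ≤ a x) : 0 ≤ mass a := Finset.sum_nonneg fun x _ => h x

theorem le_mass {a : α → ℝ} (h : ∀ x, 0 ≤ a x) (x : α) : a x ≤ mass a :=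
  Finset.single_le_sum (fun y _ => h y) (Finset.mem_univ x)

theorem ee_nonneg {a : α → ℝ} (h : ∀ x, 0 ≤ a x) : 0 ≤ ee a := by
  rw [ee_eq]
  apply Finset.sum_nonneg
  intro x _
  rcases (h x).eq_or_lt with h0 | h0
  · rw [← h0]; simp
  · exact mul_nonneg (h x) (sub_nonneg.2 (Real.log_le_log h0 (le_mass h x)))

theorem ee_of_mass_one {a : α → ℝ} (h : mass a = 1) : ee a = ent a := by
  unfold ee; rw [h]; simp

theorem ent_nonneg {a : α → ℝ} (h : ∀ x, 0 ≤ a x) (h1 : ∀ x, a x ≤ 1) : 0 ≤ ent a :=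
  Finset.sum_nonneg fun x _ => negMulLog_nonneg (h x) (h1 x)

theorem mass_smul (a : α → ℝ) (c : ℝ) : mass (fun x => c * a x) = c * mass a := by
  unfold mass; rw [Finset.mul_sum]

theorem ee_smul {a : α → ℝ} (h : ∀ x, 0 ≤ a x) {c : ℝ} (hc : 0 < c) :
    ee (fun x => c * a x) = c * ee a := by
  rw [ee_eq, ee_eq, Finset.mul_sum]
  apply Finset.sum_congr rfl
  intro x _
  rw [mass_smul]
  rcases (h x).eq_or_lt with h0 | h0
  · rw [← h0]; simp
  · have h1 := lt_of_lt_of_le h0 (le_mass h x)
    rw [Real.log_mul hc.ne' h0.ne', Real.log_mul hc.ne' h1.ne']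
    ring

theorem ee_zero : ee (fun _ : α => (0 : ℝ)) = 0 := by
  rw [ee_eq]; simp

/-- merging, for a set of atoms -/
theorem negMulLog_sum_le {ι : Type*} (S : Finset ι) (a : ι → ℝ) (h : ∀ x ∈ S, 0 ≤ a x) :
    negMulLog (∑ x ∈ S, a x) ≤ ∑ x ∈ S, negMulLog (a x) := by
  have h1 : negMulLog (∑ x ∈ S, a x) = ∑ x ∈ S, -(a x * log (∑ x ∈ S, a x)) := by
    rw [Finset.sum_neg_distrib, ← Finset.sum_mul]
    unfold negMulLog
    ring
  rw [h1]
  apply Finset.sum_le_sum
  intro x hx
  unfold negMulLog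
  rcases (h x hx).eq_or_lt with h0 | h0
  · rw [← h0]; simp
  · have h2 : a x ≤ ∑ x ∈ S, a x := Finset.single_le_sum h hx
    have h3 := Real.log_le_log h0 h2
    nlinarith

/-- splitting, for a set of atoms -/
theorem sum_negMulLog_le {ι : Type*} (S : Finset ι) (a : ι → ℝ) (h : ∀ x ∈ S, 0 ≤ a x) {N : ℝ}
    (hN : (S.card : ℝ) ≤ N) :
    ∑ x ∈ S, negMulLog (a x) ≤ negMulLog (∑ x ∈ S, a x) + (∑ x ∈ S, a x) * log N := by
  rcases S.eq_empty_or_nonempty with hS | hS
  · subst hS; simp
  have hc : (0 : ℝ) < S.card := by exact_mod_cast Finset.card_pos.2 hS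
  have hj := concaveOn_negMulLog.le_map_sum (t := S) (w := fun _ => 1 / (S.card : ℝ))
    (p := a) (fun _ _ => by positivity) (by simp [hc.ne']) (fun x hx => h x hx)
  simp only [smul_eq_mul, ← Finset.mul_sum] at hj
  set s := ∑ x ∈ S, a x with hs
  have hs0 : 0 ≤ s := Finset.sum_nonneg h
  have h2 : (S.card : ℝ) * (1 / (S.card : ℝ) * ∑ x ∈ S, negMulLog (a x)) =
      ∑ x ∈ S, negMulLog (a x) := by field_simp
  have h3 := mul_le_mul_of_nonneg_left hj hc.le
  rw [h2] at h3
  refine h3.trans ?_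
  rcases hs0.eq_or_lt with h0 | h0
  · rw [← h0]; simp
  · have h4 : (S.card : ℝ) * negMulLog (1 / (S.card : ℝ) * s) = negMulLog s + s * log S.card := by
      unfold negMulLog
      rw [Real.log_mul (by positivity) h0.ne', Real.log_div one_ne_zero hc.ne', Real.log_one]
      field_simp
      ring
    rw [h4]
    have h5 := Real.log_le_log hc hN
    have h6 := mul_le_mul_of_nonneg_left h5 h0.le
    linarith

/-- the normalised entropy is superadditive -/
theorem ee_sum_le {ι : Type*} (I : Finset ι) (a : ι → α → ℝ) (h : ∀ i x, 0 ≤ a i x) :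
    ∑ i ∈ I, ee (a i) ≤ ee (fun x => ∑ i ∈ I, a i x) := by
  have hL : ∑ i ∈ I, ee (a i) = ∑ x, ∑ i ∈ I, a i x * (log (mass (a i)) - log (a i x)) := by
    rw [Finset.sum_comm]
    exact Finset.sum_congr rfl fun i _ => ee_eq _
  rw [hL, ee_eq]
  have hM : mass (fun x => ∑ i ∈ I, a i x) = ∑ i ∈ I, mass (a i) := by
    unfold mass; rw [Finset.sum_comm]
  rw [hM]
  set M := ∑ i ∈ I, mass (a i) with hMd
  apply Finset.sum_le_sum
  intro x _
  set A := ∑ i ∈ I, a i x with hA
  have hA0 : 0 ≤ A := Finset.sum_nonneg fun i _ => h i x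
  have hMA : A ≤ M := Finset.sum_le_sum fun i _ => le_mass (h i) x
  rcases hA0.eq_or_lt with h0 | h0
  · have h1 : ∀ i ∈ I, a i x = 0 := (Finset.sum_eq_zero_iff_of_nonneg fun i _ => h i x).1 h0.symm
    rw [← h0, zero_mul]
    apply le_of_eq
    apply Finset.sum_eq_zero
    intro i hi
    rw [h1 i hi, zero_mul]
  have hM0 : 0 < M := lt_of_lt_of_le h0 hMA
  have h2 : ∀ i ∈ I, a i x * (log (mass (a i)) - log (a i x)) ≤
      a i x * (log M - log A) + (mass (a i) * A / M - a i x) := by
    intro i _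
    rcases (h i x).eq_or_lt with h3 | h3
    · rw [← h3]
      have := mass_nonneg (h i)
      simp only [zero_mul, zero_add, sub_zero]
      positivity
    · have h4 : 0 < mass (a i) := lt_of_lt_of_le h3 (le_mass (h i) x)
      have h5 := Real.log_le_sub_one_of_pos (show 0 < mass (a i) * A / (a i x * M) by positivity)
      rw [Real.log_div (by positivity) (by positivity), Real.log_mul h4.ne' h0.ne',
        Real.log_mul h3.ne' hM0.ne'] at h5
      have h6 := mul_le_mul_of_nonneg_left h5 h3.le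
      have h7 : a i x * (mass (a i) * A / (a i x * M) - 1) = mass (a i) * A / M - a i x := by
        field_simp
      rw [h7] at h6
      linarith
  refine (Finset.sum_le_sum h2).trans (le_of_eq ?_)
  rw [Finset.sum_add_distrib, ← Finset.sum_mul, ← hA, Finset.sum_sub_distrib, ← hA, ← Finset.sum_div,
    ← Finset.sum_mul, ← hMd]
  field_simp
  ring

end basic

section conv

variable {G : Type*} [Fintype G] [AddCommGroup G]

/-- the convolution -/
noncomputable def cv (a b : G → ℝ) (z : G) : ℝ := ∑ x, a x * b (z - x)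

theorem cv_nonneg {a b : G → ℝ} (ha : ∀ x, 0 ≤ a x) (hb : ∀ x, 0 ≤ b x) (z : G) : 0 ≤ cv a b z :=
  Finset.sum_nonneg fun x _ => mul_nonneg (ha x) (hb _)

theorem sum_sub_right (f : G → ℝ) (x : G) : ∑ z, f (z - x) = ∑ z, f z :=
  Fintype.sum_equiv (Equiv.subRight x) _ _ fun _ => rfl

theorem cv_comm (a b : G → ℝ) : cv a b = cv b a := by
  funext z
  unfold cv
  refine Fintype.sum_equiv (Equiv.subLeft z) _ _ fun x => ?_
  rw [Equiv.subLeft_apply]
  simp only [sub_sub_cancel]
  ring

theorem mass_cv (a b : G → ℝ) : mass (cv a b) = mass a * mass b := by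
  unfold mass cv
  rw [Finset.sum_comm, Finset.sum_mul]
  apply Finset.sum_congr rfl
  intro x _
  rw [← Finset.mul_sum, sum_sub_right]

theorem ee_translate (b : G → ℝ) (x : G) : ee (fun z => b (z - x)) = ee b := by
  unfold ee ent mass
  rw [sum_sub_right (fun z => negMulLog (b z)), sum_sub_right b]

/-- convolution increases the entropy -/
theorem ee_cv_ge {a b : G → ℝ} (ha : ∀ x, 0 ≤ a x) (hb : ∀ x, 0 ≤ b x) :
    mass a * ee b ≤ ee (cv a b) := by
  have h := ee_sum_le (Finset.univ : Finset G) (fun x z => a x * b (z - x))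
    (fun x z => mul_nonneg (ha x) (hb _))
  refine le_trans (le_of_eq ?_) h
  unfold mass
  rw [Finset.sum_mul]
  apply Finset.sum_congr rfl
  intro x _
  rcases (ha x).eq_or_lt with h0 | h0
  · rw [← h0]
    simp only [zero_mul]
    rw [ee_zero]
  · rw [ee_smul (a := fun z => b (z - x)) (fun z => hb _) h0, ee_translate]

theorem ee_cv_ge' {a b : G → ℝ} (ha : ∀ x, 0 ≤ a x) (hb : ∀ x, 0 ≤ b x) :
    ee a * mass b ≤ ee (cv a b) := by
  rw [cv_comm, mul_comm]
  exact ee_cv_ge hb ha

theorem negMulLog_one_sub_le {s : ℝ} (h1 : s ≤ 1) : negMulLog (1 - s) ≤ s := by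
  rcases eq_or_lt_of_le h1 with h | h
  · rw [h]; simp
  · unfold negMulLog
    have h2 := Real.one_sub_inv_le_log_of_pos (show 0 < 1 - s by linarith)
    have h3 := mul_le_mul_of_nonneg_left h2 (show 0 ≤ 1 - s by linarith)
    have h4 : (1 - s) * (1 - (1 - s)⁻¹) = -s := by
      have : 1 - s ≠ 0 := by linarith
      field_simp
      ring
    rw [h4] at h3
    linarith

/-- deviation from a point mass -/
theorem dev {a : G → ℝ} (ha : ∀ x, 0 ≤ a x) (hm : mass a = 1) {N : ℝ}
    (hN : ((Finset.univ.filter fun x => a x ≠ 0).card : ℝ) ≤ N) :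
    ∃ x₀, 1 - a x₀ ≤ ent a ∧ ent a ≤ negMulLog (1 - a x₀) + (1 - a x₀) * (1 + log N) := by
  classical
  have hne : (Finset.univ : Finset G).Nonempty := ⟨0, Finset.mem_univ _⟩
  obtain ⟨x₀, -, hmax⟩ := Finset.exists_max_image Finset.univ a hne
  have h1 : a x₀ ≤ 1 := hm ▸ le_mass ha x₀
  refine ⟨x₀, ?_, ?_⟩
  · have h2 : ∀ x ∈ (Finset.univ : Finset G), a x * (1 - a x₀) ≤ negMulLog (a x) := by
      intro x hx
      unfold negMulLog
      rcases (ha x).eq_or_lt with h0 | h0
      · rw [← h0]; simp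
      · have h3 := Real.log_le_sub_one_of_pos h0
        have h4 := hmax x hx
        nlinarith
    have h3 := Finset.sum_le_sum h2
    rw [← Finset.sum_mul] at h3
    have h4 : ∑ x, a x = 1 := hm
    rw [h4, one_mul] at h3
    exact h3
  · set S := (Finset.univ.filter fun x => a x ≠ 0).erase x₀ with hS
    have h2 : ent a = negMulLog (a x₀) + ∑ x ∈ S, negMulLog (a x) := by
      unfold ent
      rw [← Finset.add_sum_erase Finset.univ _ (Finset.mem_univ x₀)]
      congr 1
      apply (Finset.sum_subset _ _).symm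
      · intro x hx
        rw [hS, mem_erase] at hx
        exact mem_erase.2 ⟨hx.1, mem_univ _⟩
      · intro x hx hx2
        rw [hS, mem_erase, mem_filter] at hx2
        rw [mem_erase] at hx
        have : a x = 0 := by
          by_contra hcon
          exact hx2 ⟨hx.1, mem_univ _, hcon⟩
        rw [this]; simp
    have h3 : ∑ x ∈ S, a x = 1 - a x₀ := by
      have h4 : ∑ x ∈ S, a x = ∑ x ∈ Finset.univ.erase x₀, a x := by
        apply Finset.sum_subset
        · intro x hx
          rw [hS, mem_erase] at hx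
          exact mem_erase.2 ⟨hx.1, mem_univ _⟩
        · intro x hx hx2
          rw [hS, mem_erase, mem_filter] at hx2
          rw [mem_erase] at hx
          by_contra hcon
          exact hx2 ⟨hx.1, mem_univ _, hcon⟩
      have h5 := Finset.add_sum_erase Finset.univ a (Finset.mem_univ x₀)
      have h6 : ∑ x, a x = 1 := hm
      rw [h4]
      linarith
    have h4 := sum_negMulLog_le S a (fun x _ => ha x) (N := N) (by
      refine le_trans ?_ hN
      exact_mod_cast Finset.card_le_card (Finset.erase_subset _ _))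
    rw [h3] at h4
    have h5 : negMulLog (a x₀) ≤ 1 - a x₀ := by
      have := negMulLog_one_sub_le (s := 1 - a x₀) (by linarith [ha x₀])
      simpa using this
    rw [h2]
    linarith

/-- the convolution of two measures which are nearly point masses -/
theorem cv_dev {a b : G → ℝ} (ha : ∀ x, 0 ≤ a x) (hb : ∀ x, 0 ≤ b x) (hma : mass a = 1)
    (hmb : mass b = 1) (x₀ y₀ : G) :
    ∃ q : ℝ, (1 - a x₀) + (1 - b y₀) - 2 * ((1 - a x₀) * (1 - b y₀)) ≤ q ∧
      q ≤ (1 - a x₀) + (1 - b y₀) ∧ negMulLog q ≤ ent (cv a b) := by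
  classical
  have hm : mass (cv a b) = 1 := by rw [mass_cv, hma, hmb, one_mul]
  have h0 := cv_nonneg ha hb
  set z₀ := x₀ + y₀ with hz
  refine ⟨1 - cv a b z₀, ?_, ?_, ?_⟩
  · -- upper bound for the mass of `z₀`
    have h1 : cv a b z₀ = a x₀ * b y₀ + ∑ x ∈ Finset.univ.erase x₀, a x * b (z₀ - x) := by
      unfold cv
      rw [← Finset.add_sum_erase Finset.univ _ (Finset.mem_univ x₀)]
      rw [hz, add_sub_cancel_left]
    have h2 : ∑ x ∈ Finset.univ.erase x₀, a x * b (z₀ - x) ≤
        ∑ x ∈ Finset.univ.erase x₀, a x * (1 - b y₀) := by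
      apply Finset.sum_le_sum
      intro x hx
      apply mul_le_mul_of_nonneg_left _ (ha x)
      have hne : z₀ - x ≠ y₀ := by
        intro he
        have : x = x₀ := by
          have h3 : x = z₀ - y₀ := by rw [← he]; abel
          rw [h3, hz]; abel
        exact (mem_erase.1 hx).1 this
      have h3 : b (z₀ - x) + b y₀ ≤ ∑ y, b y := by
        rw [← Finset.sum_pair hne]
        exact Finset.sum_le_sum_of_subset_of_nonneg (Finset.subset_univ _) fun _ _ _ => hb _
      have h4 : ∑ y, b y = 1 := hmb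
      linarith
    have h3 : ∑ x ∈ Finset.univ.erase x₀, a x = 1 - a x₀ := by
      have h5 := Finset.add_sum_erase Finset.univ a (Finset.mem_univ x₀)
      have h6 : ∑ x, a x = 1 := hma
      linarith
    rw [← Finset.sum_mul, h3] at h2
    rw [h1]
    nlinarith
  · have h1 : a x₀ * b y₀ ≤ cv a b z₀ := by
      unfold cv
      have := Finset.single_le_sum (f := fun x => a x * b (z₀ - x))
        (fun x _ => mul_nonneg (ha x) (hb _)) (Finset.mem_univ x₀)
      simpa [hz] using this
    have h2 : a x₀ ≤ 1 := hma ▸ le_mass ha x₀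
    have h3 : b y₀ ≤ 1 := hmb ▸ le_mass hb y₀
    have h4 := ha x₀
    have h5 := hb y₀
    nlinarith
  · have h1 : ∑ z ∈ Finset.univ.erase z₀, cv a b z = 1 - cv a b z₀ := by
      have h5 := Finset.add_sum_erase Finset.univ (cv a b) (Finset.mem_univ z₀)
      have h6 : ∑ x, cv a b x = 1 := hm
      linarith
    rw [← h1]
    refine (negMulLog_sum_le _ _ fun z _ => h0 z).trans ?_
    unfold ent
    apply Finset.sum_le_sum_of_subset_of_nonneg (Finset.erase_subset _ _)
    intro z _ _
    exact negMulLog_nonneg (h0 z) (hm ▸ le_mass h0 z)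

/-- numerical part -/
theorem num {s t δ ε N q : ℝ} (hs0 : 0 ≤ s) (ht0 : 0 ≤ t) (hsδ : s ≤ δ) (htδ : t ≤ δ)
    (hδ0 : 0 < δ) (hδ : δ ≤ 1 / 2) (hN : 0 ≤ log N)
    (hL : 2 + log N ≤ (ε - δ) * (-log δ)) (hεδ : δ ≤ ε)
    (hq1 : s + t - 2 * (s * t) ≤ q) (hq2 : q ≤ s + t) :
    (1 - ε) * (negMulLog s + s * (1 + log N) + (negMulLog t + t * (1 + log N))) ≤ negMulLog q := by
  have hst : 2 * (s * t) ≤ δ * (s + t) := by nlinarith
  have hq3 : (1 - δ) * (s + t) ≤ q := by nlinarith
  set L := -log δ with hLd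
  have key : ∀ u : ℝ, 0 ≤ u → u ≤ δ → L * u ≤ negMulLog u := by
    intro u hu0 hu
    unfold negMulLog
    rcases hu0.eq_or_lt with h | h
    · rw [← h]; simp
    · have := Real.log_le_log h hu
      nlinarith
  rcases (add_nonneg hs0 ht0).eq_or_lt with h0 | h0
  · have hs : s = 0 := by linarith
    have ht : t = 0 := by linarith
    have hq : q = 0 := by
      rw [hs, ht] at hq1 hq2
      linarith
    rw [hs, ht, hq]; simp
  have hst1 : s + t ≤ 1 := by linarith
  have hlst : 0 ≤ -log (s + t) := by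
    have := Real.log_nonpos h0.le hst1
    linarith
  have hq0 : 0 < q := lt_of_lt_of_le (mul_pos (by linarith) h0) hq3
  have h1 : (1 - δ) * (s + t) * (-log (s + t)) ≤ negMulLog q := by
    unfold negMulLog
    have h2 := Real.log_le_log hq0 hq2
    calc (1 - δ) * (s + t) * (-log (s + t)) ≤ q * (-log (s + t)) := mul_le_mul_of_nonneg_right hq3 hlst
      _ ≤ q * (-log q) := mul_le_mul_of_nonneg_left (by linarith) hq0.le
      _ = -q * log q := by ring
  have h2 : ∀ u v : ℝ, 0 ≤ u → 0 ≤ v → negMulLog u - v ≤ u * (-log (u + v)) := by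
    intro u v hu hv
    rcases hu.eq_or_lt with h | h
    · rw [← h]; simp; exact hv
    · unfold negMulLog
      have h3 := Real.log_le_sub_one_of_pos (show 0 < (u + v) / u by positivity)
      rw [Real.log_div (by positivity) h.ne'] at h3
      have h4 := mul_le_mul_of_nonneg_left h3 h.le
      have h5 : u * ((u + v) / u - 1) = v := by field_simp; ring
      rw [h5] at h4
      linarith
  have h3 := h2 s t hs0 ht0
  have h4 := h2 t s ht0 hs0
  rw [add_comm t s] at h4
  set A := negMulLog s + negMulLog t with hA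
  have h5 : A - (s + t) ≤ (s + t) * (-log (s + t)) := by
    have : (s + t) * (-log (s + t)) = s * (-log (s + t)) + t * (-log (s + t)) := by ring
    rw [this]; linarith
  have h6 : L * (s + t) ≤ A := by
    have := key s hs0 hsδ
    have := key t ht0 htδ
    rw [hA]; linarith
  have h7 : (1 - δ) * (A - (s + t)) ≤ negMulLog q := by
    calc (1 - δ) * (A - (s + t)) ≤ (1 - δ) * ((s + t) * (-log (s + t))) :=
          mul_le_mul_of_nonneg_left h5 (by linarith)
      _ = (1 - δ) * (s + t) * (-log (s + t)) := by ring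
      _ ≤ _ := h1
  refine le_trans ?_ h7
  have h8 : (1 - ε) * (negMulLog s + s * (1 + log N) + (negMulLog t + t * (1 + log N))) =
      (1 - ε) * A + (1 - ε) * (1 + log N) * (s + t) := by rw [hA]; ring
  rw [h8]
  have h9 : (ε - δ) * (L * (s + t)) ≤ (ε - δ) * A := mul_le_mul_of_nonneg_left h6 (by linarith)
  have h10 : (2 + log N) * (s + t) ≤ (ε - δ) * (L * (s + t)) := by
    calc (2 + log N) * (s + t) ≤ (ε - δ) * L * (s + t) := mul_le_mul_of_nonneg_right hL h0.le
      _ = _ := by ring
  have hε0 : 0 ≤ ε := by linarith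
  nlinarith [mul_nonneg hε0 hN, mul_nonneg (mul_nonneg hε0 hN) h0.le, mul_nonneg hε0 h0.le,
    mul_nonneg hδ0.le h0.le]

/-- **The pointwise inequality.** -/
theorem pointwise {N ε : ℝ} (hN : 1 ≤ N) (hε0 : 0 < ε) (hε1 : ε ≤ 1) :
    ∃ C : ℝ, 0 ≤ C ∧ ∀ (G : Type) [Fintype G] [AddCommGroup G] (a b : G → ℝ),
      (∀ x, 0 ≤ a x) → (∀ x, 0 ≤ b x) →
      ((Finset.univ.filter fun x => a x ≠ 0).card : ℝ) ≤ N →
      ((Finset.univ.filter fun x => b x ≠ 0).card : ℝ) ≤ N →
      (1 - ε) * (ee a * mass b + mass a * ee b) - C * (ee a * ee b) ≤ ee (cv a b) := by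
  have hlN : 0 ≤ log N := Real.log_nonneg hN
  set δ := min (ε / 2) (exp (-(2 * (2 + log N) / ε))) with hδ
  have hδ0 : 0 < δ := lt_min (by linarith) (exp_pos _)
  have hδ1 : δ ≤ ε / 2 := min_le_left _ _
  have hL : 2 + log N ≤ (ε - δ) * (-log δ) := by
    have h1 : log δ ≤ -(2 * (2 + log N) / ε) := by
      have := Real.log_le_log hδ0 (min_le_right (ε / 2) (exp (-(2 * (2 + log N) / ε))))
      rwa [Real.log_exp] at this
    have h2 : 2 * (2 + log N) / ε ≤ -log δ := by linarith
    calc 2 + log N = ε / 2 * (2 * (2 + log N) / ε) := by field_simp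
      _ ≤ (ε - δ) * (-log δ) := by
        apply mul_le_mul (by linarith) h2 (by positivity) (by linarith)
  refine ⟨1 / δ, by positivity, ?_⟩
  intro G _ _ a b ha hb hNa hNb
  -- probability measures
  have hprob : ∀ a b : G → ℝ, (∀ x, 0 ≤ a x) → (∀ x, 0 ≤ b x) → mass a = 1 → mass b = 1 →
      ((Finset.univ.filter fun x => a x ≠ 0).card : ℝ) ≤ N →
      ((Finset.univ.filter fun x => b x ≠ 0).card : ℝ) ≤ N →
      (1 - ε) * (ee a + ee b) - 1 / δ * (ee a * ee b) ≤ ee (cv a b) := by
    intro a b ha hb hma hmb hNa hNb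
    have ha0 := ee_nonneg ha
    have hb0 := ee_nonneg hb
    obtain ⟨x₀, hx1, hx2⟩ := dev ha hma hNa
    obtain ⟨y₀, hy1, hy2⟩ := dev hb hmb hNb
    rw [← ee_of_mass_one hma] at hx1 hx2
    rw [← ee_of_mass_one hmb] at hy1 hy2
    have hax : a x₀ ≤ 1 := hma ▸ le_mass ha x₀
    have hby : b y₀ ≤ 1 := hmb ▸ le_mass hb y₀
    by_cases h1 : 1 - a x₀ ≤ δ
    · by_cases h2 : 1 - b y₀ ≤ δ
      · obtain ⟨q, hq1, hq2, hq3⟩ := cv_dev ha hb hma hmb x₀ y₀
        have h3 := num (s := 1 - a x₀) (t := 1 - b y₀) (N := N) (ε := ε) (by linarith) (by linarith)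
          h1 h2 hδ0 (by linarith) hlN hL (by linarith) hq1 hq2
        have h4 : ee (cv a b) = ent (cv a b) := ee_of_mass_one (by rw [mass_cv, hma, hmb, one_mul])
        rw [h4]
        refine le_trans ?_ hq3
        refine le_trans ?_ h3
        have h5 : (1 - ε) * (ee a + ee b) ≤ (1 - ε) * (negMulLog (1 - a x₀) +
            (1 - a x₀) * (1 + log N) + (negMulLog (1 - b y₀) + (1 - b y₀) * (1 + log N))) :=
          mul_le_mul_of_nonneg_left (by linarith) (by linarith)
        have h6 : 0 ≤ 1 / δ * (ee a * ee b) := by positivity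
        linarith
      · push Not at h2
        have h3 : ee a ≤ 1 / δ * (ee a * ee b) := by
          have : δ ≤ ee b := by linarith
          rw [div_mul_eq_mul_div, one_mul, le_div_iff₀ hδ0]
          exact mul_le_mul_of_nonneg_left this ha0
        have h4 := ee_cv_ge ha hb
        rw [hma, one_mul] at h4
        nlinarith
    · push Not at h1
      have h3 : ee b ≤ 1 / δ * (ee a * ee b) := by
        have : δ ≤ ee a := by linarith
        rw [div_mul_eq_mul_div, one_mul, le_div_iff₀ hδ0, mul_comm (ee a)]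
        exact mul_le_mul_of_nonneg_left this hb0
      have h4 := ee_cv_ge' ha hb
      rw [hmb, mul_one] at h4
      nlinarith
  -- the general case
  rcases (mass_nonneg ha).eq_or_lt with h0 | h0
  · have h1 : ∀ x, a x = 0 := fun x => le_antisymm (h0 ▸ le_mass ha x) (ha x)
    have h2 : a = fun _ => 0 := funext h1
    have h3 : ee a = 0 := by rw [h2]; exact ee_zero
    rw [← h0, h3]
    have h4 := ee_nonneg (cv_nonneg ha hb)
    simp only [zero_mul, add_zero, mul_zero, sub_zero]
    exact h4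
  rcases (mass_nonneg hb).eq_or_lt with h0' | h0'
  · have h1 : ∀ x, b x = 0 := fun x => le_antisymm (h0' ▸ le_mass hb x) (hb x)
    have h2 : b = fun _ => 0 := funext h1
    have h3 : ee b = 0 := by rw [h2]; exact ee_zero
    rw [← h0', h3]
    have h4 := ee_nonneg (cv_nonneg ha hb)
    simp only [zero_mul, mul_zero, add_zero, sub_zero]
    exact h4
  set a' : G → ℝ := fun x => (mass a)⁻¹ * a x with ha'
  set b' : G → ℝ := fun x => (mass b)⁻¹ * b x with hb'
  have hna : ∀ x, 0 ≤ a' x := fun x => mul_nonneg (inv_nonneg.2 h0.le) (ha x)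
  have hnb : ∀ x, 0 ≤ b' x := fun x => mul_nonneg (inv_nonneg.2 h0'.le) (hb x)
  have e1 : a = fun x => mass a * a' x := by
    funext x; rw [ha']; field_simp
  have e2 : b = fun x => mass b * b' x := by
    funext x; rw [hb']; field_simp
  have hma' : mass a' = 1 := by rw [ha', mass_smul]; field_simp
  have hmb' : mass b' = 1 := by rw [hb', mass_smul]; field_simp
  have hea : ee a = mass a * ee a' := by
    conv_lhs => rw [e1]
    rw [ee_smul hna h0]
  have heb : ee b = mass b * ee b' := by
    conv_lhs => rw [e2]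
    rw [ee_smul hnb h0']
  have hcv : cv a b = fun z => (mass a * mass b) * cv a' b' z := by
    funext z
    unfold cv
    rw [Finset.mul_sum]
    apply Finset.sum_congr rfl
    intro x _
    have h1 : a x = mass a * a' x := congrFun e1 x
    have h2 : b (z - x) = mass b * b' (z - x) := congrFun e2 (z - x)
    calc a x * b (z - x) = (mass a * a' x) * (mass b * b' (z - x)) := by rw [← h1, ← h2]
      _ = _ := by ring
  have hec : ee (cv a b) = mass a * mass b * ee (cv a' b') := by
    rw [hcv, ee_smul (cv_nonneg hna hnb) (mul_pos h0 h0')]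
  have h1 := hprob a' b' hna hnb hma' hmb' (by
    refine le_trans (le_of_eq ?_) hNa
    congr 2
    ext x
    simp [ha', h0.ne']) (by
    refine le_trans (le_of_eq ?_) hNb
    congr 2
    ext x
    simp [hb', h0'.ne'])
  rw [hec, hea, heb]
  have h2 := mul_le_mul_of_nonneg_left h1 (mul_pos h0 h0').le
  refine le_trans (le_of_eq ?_) h2
  ring

end conv

end Pool.Agent.N903.ZE
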