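import Mathlib
import Pool.Agent.N903.ZE.Loc

set_option autoImplicit false
set_option linter.unusedSectionVars false

/-!
# The increase of the entropy of a convolution from a quotient group to the group
-/

namespace Pool.Agent.N903.ZE

open Real Finset

section push

variable {α β : Type*} [Fintype α] [Fintype β] [DecidableEq β]

/-- the restriction to a fibre -/
noncomputable def res (f : α → β) (P : α → ℝ) (u : β) (x : α) : ℝ := if f x = u then P x else 0

/-- the image measure -/
noncomputable def push (f : α → β) (P : α → ℝ) (u : β) : ℝ := ∑ x, if f x = u then P x else 0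

theorem mass_res (f : α → β) (P : α → ℝ) (u : β) : mass (res f P u) = push f P u := rfl

theorem res_nonneg {f : α → β} {P : α → ℝ} (h : ∀ x, 0 ≤ P x) (u : β) (x : α) : 0 ≤ res f P u x := by
  unfold res; split_ifs
  · exact h x
  · exact le_rfl

theorem push_nonneg {f : α → β} {P : α → ℝ} (h : ∀ x, 0 ≤ P x) (u : β) : 0 ≤ push f P u :=
  mass_nonneg (res_nonneg h u)

theorem sum_res (f : α → β) (P : α → ℝ) (x : α) : ∑ u, res f P u x = P x := by
  unfold res; simp

theorem mass_push (f : α → β) (P : α → ℝ) : mass (push f P) = mass P := by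
  unfold mass push
  rw [Finset.sum_comm]
  apply Finset.sum_congr rfl
  intro x _
  simp

theorem ent_sub_push (f : α → β) (P : α → ℝ) : ent P - ent (push f P) = ∑ u, ee (res f P u) := by
  unfold ee
  rw [Finset.sum_sub_distrib]
  congr 1
  unfold ent
  rw [Finset.sum_comm]
  apply Finset.sum_congr rfl
  intro x _
  unfold res
  rw [Finset.sum_eq_single (f x)]
  · simp
  · intro u _ hu
    rw [if_neg (Ne.symm hu)]; simp
  · intro h; exact absurd (Finset.mem_univ _) h

theorem ent_push_le {f : α → β} {P : α → ℝ} (h : ∀ x, 0 ≤ P x) : ent (push f P) ≤ ent P := by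
  have h1 := ent_sub_push f P
  have h2 : 0 ≤ ∑ u, ee (res f P u) := Finset.sum_nonneg fun u _ => ee_nonneg (res_nonneg h u)
  linarith

end push

section step

variable {Γ Γ' : Type} [Fintype Γ] [AddCommGroup Γ] [Fintype Γ'] [AddCommGroup Γ'] [DecidableEq Γ']

theorem res_cv (φ : Γ →+ Γ') (P Q : Γ → ℝ) (w : Γ') (z : Γ) :
    res φ (cv P Q) w z = ∑ u, cv (res φ P u) (res φ Q (w - u)) z := by
  unfold cv
  rw [Finset.sum_comm]
  unfold res
  split_ifs with h
  · apply Finset.sum_congr rfl
    intro x _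
    rw [Finset.sum_eq_single (φ x)]
    · rw [if_pos rfl, if_pos (by rw [map_sub, h])]
    · intro u _ hu
      rw [if_neg (Ne.symm hu), zero_mul]
    · intro h'; exact absurd (Finset.mem_univ _) h'
  · symm
    apply Finset.sum_eq_zero
    intro x _
    apply Finset.sum_eq_zero
    intro u _
    by_cases h1 : φ x = u
    · by_cases h2 : φ (z - x) = w - u
      · exfalso
        apply h
        rw [map_sub, h1] at h2
        exact sub_left_injective h2
      · rw [if_neg h2, mul_zero]
    · rw [if_neg h1, zero_mul]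

theorem push_cv (φ : Γ →+ Γ') (P Q : Γ → ℝ) : push φ (cv P Q) = cv (push φ P) (push φ Q) := by
  funext w
  have h1 : push φ (cv P Q) w = mass (fun z => ∑ u, cv (res φ P u) (res φ Q (w - u)) z) := by
    rw [← mass_res]
    congr 1
    funext z
    exact res_cv φ P Q w z
  rw [h1]
  unfold mass
  rw [Finset.sum_comm]
  change ∑ u, mass (cv (res φ P u) (res φ Q (w - u))) = _
  unfold cv
  apply Finset.sum_congr rfl
  intro u _
  exact mass_cv _ _

theorem step {N ε : ℝ} (hN : 1 ≤ N) (hε0 : 0 < ε) (hε1 : ε ≤ 1) :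
    ∃ C : ℝ, 0 ≤ C ∧ ∀ (Γ Γ' : Type) [Fintype Γ] [AddCommGroup Γ] [Fintype Γ'] [AddCommGroup Γ']
      [DecidableEq Γ'] (φ : Γ →+ Γ') (P Q : Γ → ℝ), (∀ x, 0 ≤ P x) → (∀ x, 0 ≤ Q x) →
      mass P = 1 → mass Q = 1 → (∀ u, ((Finset.univ.filter fun x => φ x = u).card : ℝ) ≤ N) →
      (1 - ε) * ((ent P - ent (push φ P)) + (ent Q - ent (push φ Q))) -
        C * ((ent P - ent (push φ P)) * (ent Q - ent (push φ Q))) ≤
        ent (cv P Q) - ent (cv (push φ P) (push φ Q)) := by
  obtain ⟨C, hC, hpt⟩ := pointwise hN hε0 hε1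
  refine ⟨C, hC, ?_⟩
  intro Γ Γ' _ _ _ _ _ φ P Q hP hQ hmP hmQ hfib
  have hcard : ∀ (P : Γ → ℝ) (u : Γ'), ((Finset.univ.filter fun x => res φ P u x ≠ 0).card : ℝ) ≤ N := by
    intro P u
    refine le_trans ?_ (hfib u)
    norm_cast
    apply Finset.card_le_card
    intro x hx
    rw [mem_filter] at hx ⊢
    refine ⟨mem_univ _, ?_⟩
    by_contra h
    apply hx.2
    unfold res
    rw [if_neg h]
  rw [← push_cv, ent_sub_push φ (cv P Q), ent_sub_push φ P, ent_sub_push φ Q]
  have h1 : ∀ w ∈ (Finset.univ : Finset Γ'), ∑ u, ee (cv (res φ P u) (res φ Q (w - u))) ≤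
      ee (res φ (cv P Q) w) := by
    intro w _
    have h2 : res φ (cv P Q) w = fun z => ∑ u, cv (res φ P u) (res φ Q (w - u)) z :=
      funext fun z => res_cv φ P Q w z
    rw [h2]
    exact ee_sum_le _ _ fun u z => cv_nonneg (res_nonneg hP u) (res_nonneg hQ _) z
  refine le_trans ?_ (Finset.sum_le_sum h1)
  have h3 : ∑ w, ∑ u, ee (cv (res φ P u) (res φ Q (w - u))) =
      ∑ u, ∑ v, ee (cv (res φ P u) (res φ Q v)) := by
    rw [Finset.sum_comm]
    apply Finset.sum_congr rfl
    intro u _
    exact sum_sub_right (fun v => ee (cv (res φ P u) (res φ Q v))) u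
  rw [h3]
  have h4 : ∀ u ∈ (Finset.univ : Finset Γ'), ∀ v ∈ (Finset.univ : Finset Γ'),
      (1 - ε) * (ee (res φ P u) * mass (res φ Q v) + mass (res φ P u) * ee (res φ Q v)) -
        C * (ee (res φ P u) * ee (res φ Q v)) ≤ ee (cv (res φ P u) (res φ Q v)) := by
    intro u _ v _
    exact hpt Γ _ _ (res_nonneg hP u) (res_nonneg hQ v) (hcard P u) (hcard Q v)
  refine le_trans (le_of_eq ?_) (Finset.sum_le_sum fun u hu => Finset.sum_le_sum fun v hv => h4 u hu v hv)
  have hp : ∑ u, mass (res φ P u) = 1 := by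
    have := mass_push φ P
    rw [hmP] at this
    exact this
  have hq : ∑ u, mass (res φ Q u) = 1 := by
    have := mass_push φ Q
    rw [hmQ] at this
    exact this
  set A := ∑ u, ee (res φ P u) with hA
  set B := ∑ u, ee (res φ Q u) with hB
  simp only [Finset.sum_sub_distrib, ← Finset.mul_sum, Finset.sum_add_distrib, ← Finset.sum_mul]
  rw [hp, hq, ← hA, ← hB]
  ring

end step

end Pool.Agent.N903.ZE
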