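import Mathlib
import Pool.Agent.N903.ZE.Step

set_option autoImplicit false
set_option linter.unusedSectionVars false

/-!
# Compatible families of measures on the groups `ZMod (p ^ n)`
-/

namespace Pool.Agent.N903.ZE

open Real Finset Filter Topology

variable {p : ℕ} [NeZero p]

/-- forget the leading digit -/
def low (p n : ℕ) : ZMod (p ^ (n + 1)) →+* ZMod (p ^ n) :=
  ZMod.castHom (pow_dvd_pow p (Nat.le_succ n)) (ZMod (p ^ n))

/-- forget the last digit -/
def lead (p n : ℕ) (x : ZMod (p ^ (n + 1))) : ZMod (p ^ n) := ((x.val / p : ℕ) : ZMod (p ^ n))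

theorem low_intCast (n : ℕ) (m : ℤ) : low p n (m : ZMod (p ^ (n + 1))) = (m : ZMod (p ^ n)) :=
  map_intCast _ _

theorem lead_intCast (n : ℕ) (m : ℤ) :
    lead p n (m : ZMod (p ^ (n + 1))) = ((m / p : ℤ) : ZMod (p ^ n)) := by
  have hp : 0 < p := Nat.pos_of_ne_zero (NeZero.ne p)
  unfold lead
  have h1 : (((m : ZMod (p ^ (n + 1))).val / p : ℕ) : ℤ) = m % (p ^ (n + 1) : ℕ) / p := by
    push_cast
    rw [ZMod.val_intCast]
    push_cast
    rfl
  have h2 : (((((m : ZMod (p ^ (n + 1))).val / p : ℕ) : ℤ)) : ZMod (p ^ n)) =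
      ((m / p : ℤ) : ZMod (p ^ n)) := by
    rw [h1, ZMod.intCast_eq_intCast_iff_dvd_sub]
    refine ⟨m / (p ^ (n + 1) : ℕ), ?_⟩
    have h3 : m = m % (p ^ (n + 1) : ℕ) + p * ((p ^ n : ℕ) * (m / (p ^ (n + 1) : ℕ))) := by
      conv_lhs => rw [← Int.emod_add_mul_ediv m (p ^ (n + 1) : ℕ)]
      push_cast
      ring
    have h4 : m / (p : ℤ) = m % (p ^ (n + 1) : ℕ) / p + (p ^ n : ℕ) * (m / (p ^ (n + 1) : ℕ)) := by
      conv_lhs => rw [h3]
      rw [Int.add_mul_ediv_left _ _ (by exact_mod_cast hp.ne')]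
    rw [h4]
    ring
  rw [← h2, Int.cast_natCast]

theorem fib (n : ℕ) (u : ZMod (p ^ n)) :
    ((Finset.univ.filter fun x : ZMod (p ^ (n + 1)) => low p n x = u).card : ℝ) ≤ p := by
  have hp : 0 < p := Nat.pos_of_ne_zero (NeZero.ne p)
  have h : (Finset.univ.filter fun x : ZMod (p ^ (n + 1)) => low p n x = u).card ≤
      (Finset.range p).card := by
    apply Finset.card_le_card_of_injOn (fun x => x.val / p ^ n)
    · intro x _
      simp only [coe_range, Set.mem_Iio]
      apply Nat.div_lt_of_lt_mul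
      rw [← pow_succ]
      exact ZMod.val_lt x
    · intro x hx y hy hxy
      simp only [coe_filter, mem_univ, true_and, Set.mem_ofPred_eq] at hx hy
      simp only at hxy
      have h1 : (x.val : ZMod (p ^ n)) = (y.val : ZMod (p ^ n)) := by
        have e1 : (x.val : ZMod (p ^ n)) = low p n x := by
          conv_rhs => rw [← ZMod.natCast_zmod_val x]
          rw [map_natCast]
        have e2 : (y.val : ZMod (p ^ n)) = low p n y := by
          conv_rhs => rw [← ZMod.natCast_zmod_val y]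
          rw [map_natCast]
        rw [e1, e2, hx, hy]
      rw [ZMod.natCast_eq_natCast_iff'] at h1
      apply ZMod.val_injective
      rw [← Nat.div_add_mod x.val (p ^ n), ← Nat.div_add_mod y.val (p ^ n), hxy, h1]
  rw [Finset.card_range] at h
  exact_mod_cast h

/-- A family of laws of the first `n` digits. -/
structure Fam (P : ∀ n, ZMod (p ^ n) → ℝ) : Prop where
  nonneg : ∀ n x, 0 ≤ P n x
  mass_one : ∀ n, mass (P n) = 1
  push_low : ∀ n, push (low p n) (P (n + 1)) = P n

theorem Fam.le_one {P : ∀ n, ZMod (p ^ n) → ℝ} (h : Fam P) (n : ℕ) (x : ZMod (p ^ n)) :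
    P n x ≤ 1 := h.mass_one n ▸ le_mass (h.nonneg n) x

theorem Fam.ent_nonneg {P : ∀ n, ZMod (p ^ n) → ℝ} (h : Fam P) (n : ℕ) : 0 ≤ ent (P n) :=
  ZE.ent_nonneg (h.nonneg n) (h.le_one n)

theorem Fam.ent_zero {P : ∀ n, ZMod (p ^ n) → ℝ} (h : Fam P) : ent (P 0) = 0 := by
  have h1 : ∀ x : ZMod (p ^ 0), P 0 x = 1 := by
    intro x
    have h2 := h.mass_one 0
    unfold mass at h2
    have h3 : Subsingleton (ZMod (p ^ 0)) := by
      rw [pow_zero]; infer_instance
    rw [Fintype.sum_subsingleton _ x] at h2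
    exact h2
  unfold ent
  apply Finset.sum_eq_zero
  intro x _
  rw [h1 x, negMulLog_one]

theorem Fam.mono {P : ∀ n, ZMod (p ^ n) → ℝ} (h : Fam P) (n : ℕ) : ent (P n) ≤ ent (P (n + 1)) := by
  have := ent_push_le (f := low p n) (h.nonneg (n + 1))
  rwa [h.push_low n] at this

theorem Fam.cv {P Q : ∀ n, ZMod (p ^ n) → ℝ} (hP : Fam P) (hQ : Fam Q) :
    Fam (fun n => ZE.cv (P n) (Q n)) where
  nonneg n x := cv_nonneg (hP.nonneg n) (hQ.nonneg n) x
  mass_one n := by rw [mass_cv, hP.mass_one, hQ.mass_one, one_mul]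
  push_low n := by
    have := push_cv (low p n).toAddMonoidHom (P (n + 1)) (Q (n + 1))
    have e : ⇑(low p n).toAddMonoidHom = ⇑(low p n) := rfl
    rw [e] at this
    rw [this, hP.push_low, hQ.push_low]

theorem seq1 {ε : ℝ} (hε0 : 0 < ε) (hε1 : ε ≤ 1) :
    ∃ C : ℝ, 0 ≤ C ∧ ∀ P Q : ∀ n, ZMod (p ^ n) → ℝ, Fam P → Fam Q → ∀ n,
      ∑ k ∈ Finset.range n, ((1 - ε) * ((ent (P (k + 1)) - ent (P k)) + (ent (Q (k + 1)) - ent (Q k))) -
        C * ((ent (P (k + 1)) - ent (P k)) * (ent (Q (k + 1)) - ent (Q k)))) ≤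
        ent (cv (P n) (Q n)) := by
  have hp : 0 < p := Nat.pos_of_ne_zero (NeZero.ne p)
  obtain ⟨C, hC, h⟩ := step (N := (p : ℝ)) (by exact_mod_cast hp) hε0 hε1
  refine ⟨C, hC, ?_⟩
  intro P Q hP hQ n
  induction n with
  | zero => simpa using (hP.cv hQ).ent_nonneg 0
  | succ n ih =>
    rw [Finset.sum_range_succ]
    have h1 := h (ZMod (p ^ (n + 1))) (ZMod (p ^ n)) (low p n).toAddMonoidHom (P (n + 1)) (Q (n + 1))
      (hP.nonneg _) (hQ.nonneg _) (hP.mass_one _) (hQ.mass_one _) (fib n)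
    have e : ⇑(low p n).toAddMonoidHom = ⇑(low p n) := rfl
    rw [e] at h1
    rw [hP.push_low, hQ.push_low] at h1
    linarith

theorem seq2 {P Q : ∀ n, ZMod (p ^ n) → ℝ} (hP : Fam P) (hQ : Fam Q)
    (hz : Tendsto (fun n => ent (P (n + 1)) - ent (P n)) atTop (𝓝 0)) {ε : ℝ} (hε0 : 0 < ε) :
    ∃ C : ℝ, 0 ≤ C ∧ ∀ n, (1 - ε) * (ent (P n) + ent (Q n)) - C ≤ ent (cv (P n) (Q n)) := by
  by_cases hε1 : 1 ≤ ε
  · refine ⟨0, le_rfl, fun n => ?_⟩
    have h1 := (hP.cv hQ).ent_nonneg n
    have h2 := hP.ent_nonneg n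
    have h3 := hQ.ent_nonneg n
    nlinarith
  push Not at hε1
  obtain ⟨C, hC, h⟩ := seq1 (p := p) (ε := ε / 2) (by linarith) (by linarith)
  have h1 : ∀ᶠ n in atTop, C * (ent (P (n + 1)) - ent (P n)) ≤ ε / 2 := by
    have h2 : Tendsto (fun n => C * (ent (P (n + 1)) - ent (P n))) atTop (𝓝 (C * 0)) :=
      hz.const_mul C
    rw [mul_zero] at h2
    exact h2.eventually_le_const (by linarith)
  obtain ⟨K, hK⟩ := eventually_atTop.1 h1
  have ha : ∀ k, 0 ≤ ent (P (k + 1)) - ent (P k) := fun k => sub_nonneg.2 (hP.mono k)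
  have hb : ∀ k, 0 ≤ ent (Q (k + 1)) - ent (Q k) := fun k => sub_nonneg.2 (hQ.mono k)
  refine ⟨∑ k ∈ Finset.range K, C * ((ent (P (k + 1)) - ent (P k)) * (ent (Q (k + 1)) - ent (Q k))),
    Finset.sum_nonneg fun k _ => mul_nonneg hC (mul_nonneg (ha k) (hb k)), ?_⟩
  intro n
  refine le_trans ?_ (h P Q hP hQ n)
  have h2 : ∀ n : ℕ, ∑ k ∈ Finset.range n, (1 - ε) * ((ent (P (k + 1)) - ent (P k)) +
      (ent (Q (k + 1)) - ent (Q k))) = (1 - ε) * (ent (P n) + ent (Q n)) := by
    intro n
    rw [← Finset.mul_sum, Finset.sum_add_distrib, Finset.sum_range_sub (fun k => ent (P k)),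
      Finset.sum_range_sub (fun k => ent (Q k)), hP.ent_zero, hQ.ent_zero]
    ring
  rw [← h2]
  set c : ℕ → ℝ := fun k => C * ((ent (P (k + 1)) - ent (P k)) * (ent (Q (k + 1)) - ent (Q k))) with hc
  have hc0 : ∀ k, 0 ≤ c k := fun k => mul_nonneg hC (mul_nonneg (ha k) (hb k))
  have h3 : ∀ k ∈ Finset.range n, (1 - ε) * ((ent (P (k + 1)) - ent (P k)) +
      (ent (Q (k + 1)) - ent (Q k))) - (if k < K then c k else 0) ≤
      (1 - ε / 2) * ((ent (P (k + 1)) - ent (P k)) + (ent (Q (k + 1)) - ent (Q k))) - c k := by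
    intro k _
    have := ha k
    have := hb k
    split_ifs with hk
    · nlinarith
    · push Not at hk
      have h4 := mul_le_mul_of_nonneg_right (hK k hk) (hb k)
      have h5 : c k = C * (ent (P (k + 1)) - ent (P k)) * (ent (Q (k + 1)) - ent (Q k)) := by
        rw [hc]; ring
      rw [h5]
      nlinarith
  refine le_trans ?_ (Finset.sum_le_sum h3)
  rw [Finset.sum_sub_distrib]
  have h4 : ∑ k ∈ Finset.range n, (if k < K then c k else 0) ≤ ∑ k ∈ Finset.range K, c k := by
    rw [← Finset.sum_filter]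
    apply Finset.sum_le_sum_of_subset_of_nonneg
    · intro k hk
      rw [Finset.mem_filter] at hk
      exact Finset.mem_range.2 hk.2
    · intro k _ _
      exact hc0 k
  linarith

theorem ent_push_eq {α β : Type*} [Fintype α] [Fintype β] [DecidableEq β] (w : α → ℝ) (f : α → β) :
    ent (push f w) = ∑ x, -(w x * log (push f w (f x))) := by
  unfold ent negMulLog
  have h1 : ∀ u ∈ (Finset.univ : Finset β), -push f w u * log (push f w u) =
      ∑ x, if f x = u then -(w x * log (push f w (f x))) else 0 := by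
    intro u _
    have h2 : -push f w u * log (push f w u) = ∑ x, (if f x = u then w x else 0) * (-log (push f w u)) := by
      rw [← Finset.sum_mul]
      unfold push
      ring
    rw [h2]
    apply Finset.sum_congr rfl
    intro x _
    split_ifs with h
    · rw [h]; ring
    · simp
  rw [Finset.sum_congr rfl h1, Finset.sum_comm]
  simp

theorem le_push {α β : Type*} [Fintype α] [Fintype β] [DecidableEq β] {w : α → ℝ}
    (hw : ∀ x, 0 ≤ w x) (f : α → β) (x : α) : w x ≤ push f w (f x) := by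
  have h1 : res f w (f x) x = w x := by unfold res; simp
  have h2 := le_mass (res_nonneg (f := f) hw (f x)) x
  rw [h1, mass_res] at h2
  exact h2

theorem push_push {α β δ : Type*} [Fintype α] [Fintype β] [DecidableEq β] [DecidableEq δ]
    (w : α → ℝ) (f : α → β) (φ : β → δ) : push φ (push f w) = push (fun x => φ (f x)) w := by
  funext u
  unfold push
  have h1 : ∀ b ∈ (Finset.univ : Finset β), (if φ b = u then ∑ x, (if f x = b then w x else 0) else 0) =
      ∑ x, if φ b = u then (if f x = b then w x else 0) else 0 := by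
    intro b _
    split_ifs with h
    · rfl
    · simp
  rw [Finset.sum_congr rfl h1, Finset.sum_comm]
  apply Finset.sum_congr rfl
  intro x _
  rw [Finset.sum_eq_single (f x)]
  · simp
  · intro b _ hb
    simp [Ne.symm hb]
  · intro h; exact absurd (Finset.mem_univ _) h

/-- strong subadditivity -/
theorem ssa {α β γ δ : Type*} [Fintype α] [Fintype β] [Fintype γ] [Fintype δ] [DecidableEq β]
    [DecidableEq γ] [DecidableEq δ] (w : α → ℝ) (hw : ∀ x, 0 ≤ w x) (f : α → β) (g : α → γ)
    (φ : β → δ) (ψ : γ → δ) (hc : ∀ x, φ (f x) = ψ (g x))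
    (hinj : ∀ x y, f x = f y → g x = g y → x = y) :
    ent w + ent (push φ (push f w)) ≤ ent (push f w) + ent (push g w) := by
  set F := push f w with hF
  set G := push g w with hG
  set M := push φ F with hM
  have hF0 : ∀ u, 0 ≤ F u := push_nonneg hw
  have hG0 : ∀ u, 0 ≤ G u := push_nonneg hw
  have hM0 : ∀ u, 0 ≤ M u := push_nonneg hF0
  have hMw : M = push (fun x => φ (f x)) w := push_push w f φ
  have hMG : M = push ψ G := by
    rw [hMw, hG, push_push]
    congr 1
    funext x
    exact hc x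
  rw [hMw, hF, hG, ent_push_eq w f, ent_push_eq w g, ent_push_eq w fun x => φ (f x), ← hMw, ← hF, ← hG]
  unfold ent
  rw [← Finset.sum_add_distrib, ← Finset.sum_add_distrib]
  -- pointwise inequality
  have h1 : ∀ x ∈ (Finset.univ : Finset α), negMulLog (w x) + -(w x * log (M (φ (f x)))) ≤
      -(w x * log (F (f x))) + -(w x * log (G (g x))) +
        (F (f x) * G (g x) / M (φ (f x)) - w x) := by
    intro x _
    rcases (hw x).eq_or_lt with h0 | h0
    · rw [← h0]
      simp only [negMulLog_zero, zero_mul, neg_zero, add_zero, zero_add, sub_zero]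
      exact div_nonneg (mul_nonneg (hF0 _) (hG0 _)) (hM0 _)
    · have hFx : 0 < F (f x) := lt_of_lt_of_le h0 (le_push hw f x)
      have hGx : 0 < G (g x) := lt_of_lt_of_le h0 (le_push hw g x)
      have hMx : 0 < M (φ (f x)) := by
        rw [hMw]; exact lt_of_lt_of_le h0 (le_push hw (fun x => φ (f x)) x)
      have h5 := Real.log_le_sub_one_of_pos
        (show 0 < F (f x) * G (g x) / (M (φ (f x)) * w x) by positivity)
      rw [Real.log_div (by positivity) (by positivity), Real.log_mul hFx.ne' hGx.ne',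
        Real.log_mul hMx.ne' h0.ne'] at h5
      have h6 := mul_le_mul_of_nonneg_left h5 h0.le
      have h7 : w x * (F (f x) * G (g x) / (M (φ (f x)) * w x) - 1) =
          F (f x) * G (g x) / M (φ (f x)) - w x := by field_simp
      rw [h7] at h6
      unfold negMulLog
      linarith
  refine (Finset.sum_le_sum h1).trans ?_
  rw [Finset.sum_add_distrib (g := fun x => F (f x) * G (g x) / M (φ (f x)) - w x)]
  have h2 : ∑ x, (F (f x) * G (g x) / M (φ (f x)) - w x) ≤ 0 := by
    rw [Finset.sum_sub_distrib]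
    have h3 : ∑ x, F (f x) * G (g x) / M (φ (f x)) ≤
        ∑ u, ∑ v, if φ u = ψ v then F u * G v / M (φ u) else 0 := by
      rw [← Fintype.sum_prod_type']
      have h4 : ∑ x, F (f x) * G (g x) / M (φ (f x)) =
          ∑ z ∈ (Finset.univ : Finset α).image (fun x => (f x, g x)),
            (if φ z.1 = ψ z.2 then F z.1 * G z.2 / M (φ z.1) else 0) := by
        rw [Finset.sum_image]
        · apply Finset.sum_congr rfl
          intro x _
          rw [if_pos (hc x)]
        · intro x _ y _ hxy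
          exact hinj x y (Prod.ext_iff.1 hxy).1 (Prod.ext_iff.1 hxy).2
      rw [h4]
      apply Finset.sum_le_sum_of_subset_of_nonneg (Finset.subset_univ _)
      intro z _ _
      split_ifs
      · exact div_nonneg (mul_nonneg (hF0 _) (hG0 _)) (hM0 _)
      · exact le_rfl
    have h5 : ∑ u, ∑ v, (if φ u = ψ v then F u * G v / M (φ u) else 0) ≤ ∑ u, F u := by
      apply Finset.sum_le_sum
      intro u _
      have h6 : ∑ v, (if φ u = ψ v then F u * G v / M (φ u) else 0) = F u * M (φ u) / M (φ u) := by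
        have h7 : ∀ v ∈ (Finset.univ : Finset γ), (if φ u = ψ v then F u * G v / M (φ u) else 0) =
            F u / M (φ u) * (if ψ v = φ u then G v else 0) := by
          intro v _
          by_cases hv : φ u = ψ v
          · rw [if_pos hv, if_pos hv.symm]; ring
          · rw [if_neg hv, if_neg (Ne.symm hv), mul_zero]
        rw [Finset.sum_congr rfl h7, ← Finset.mul_sum]
        have h8 : ∑ v, (if ψ v = φ u then G v else 0) = M (φ u) := by
          rw [hMG]; rfl
        rw [h8]; ring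
      rw [h6]
      rcases (hM0 (φ u)).eq_or_lt with h | h
      · rw [← h]; simp; exact hF0 u
      · rw [mul_div_assoc, div_self h.ne', mul_one]
    have h6 : ∑ u, F u = ∑ x, w x := mass_push f w
    linarith
  linarith

/-- A family which is also compatible with the other projection (invariance). -/
structure Inv (P : ∀ n, ZMod (p ^ n) → ℝ) : Prop extends Fam P where
  push_lead : ∀ n, push (lead p n) (P (n + 1)) = P n

theorem lead_low (n : ℕ) (x : ZMod (p ^ (n + 1 + 1))) :
    lead p n (low p (n + 1) x) = low p n (lead p (n + 1) x) := by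
  have h1 : x = ((x.val : ℤ) : ZMod (p ^ (n + 1 + 1))) := by simp
  rw [h1, low_intCast, lead_intCast, lead_intCast, low_intCast]

theorem low_lead_inj (n : ℕ) (x y : ZMod (p ^ (n + 1 + 1))) (h1 : low p (n + 1) x = low p (n + 1) y)
    (h2 : lead p (n + 1) x = lead p (n + 1) y) : x = y := by
  have hp : 0 < p := Nat.pos_of_ne_zero (NeZero.ne p)
  have e1 : ∀ x : ZMod (p ^ (n + 1 + 1)), low p (n + 1) x = (x.val : ZMod (p ^ (n + 1))) := by
    intro x
    conv_lhs => rw [← ZMod.natCast_zmod_val x]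
    rw [map_natCast]
  rw [e1, e1, ZMod.natCast_eq_natCast_iff'] at h1
  unfold lead at h2
  rw [ZMod.natCast_eq_natCast_iff'] at h2
  have hlt : ∀ x : ZMod (p ^ (n + 1 + 1)), x.val / p < p ^ (n + 1) := by
    intro x
    apply Nat.div_lt_of_lt_mul
    rw [mul_comm, ← pow_succ]
    exact ZMod.val_lt x
  rw [Nat.mod_eq_of_lt (hlt x), Nat.mod_eq_of_lt (hlt y)] at h2
  apply ZMod.val_injective
  have h3 : x.val % p = y.val % p := by
    have hd : p ∣ p ^ (n + 1) := dvd_pow_self p (Nat.succ_ne_zero n)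
    have h4 := congrArg (· % p) h1
    simp only [Nat.mod_mod_of_dvd _ hd] at h4
    exact h4
  rw [← Nat.div_add_mod x.val p, ← Nat.div_add_mod y.val p, h2, h3]

theorem Inv.concave {P : ∀ n, ZMod (p ^ n) → ℝ} (h : Inv P) (n : ℕ) :
    ent (P (n + 2)) + ent (P n) ≤ 2 * ent (P (n + 1)) := by
  have h1 := ssa (P (n + 1 + 1)) (h.nonneg _) (low p (n + 1)) (lead p (n + 1)) (lead p n) (low p n)
    (fun x => lead_low n x) (low_lead_inj n)
  rw [h.push_low (n + 1), h.push_lead (n + 1), h.push_lead n] at h1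
  linarith

theorem Inv.antitone {P : ∀ n, ZMod (p ^ n) → ℝ} (h : Inv P) :
    Antitone fun n => ent (P (n + 1)) - ent (P n) := by
  apply antitone_nat_of_succ_le
  intro n
  have := h.concave n
  have e : n + 1 + 1 = n + 2 := rfl
  rw [e]
  linarith

theorem Inv.tendsto {P : ∀ n, ZMod (p ^ n) → ℝ} (h : Inv P)
    (hz : Tendsto (fun n : ℕ => ent (P n) / n) atTop (𝓝 0)) :
    Tendsto (fun n => ent (P (n + 1)) - ent (P n)) atTop (𝓝 0) := by
  have h1 : Tendsto (fun n : ℕ => ent (P (n + 1)) / ((n + 1 : ℕ) : ℝ)) atTop (𝓝 0) :=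
    hz.comp (tendsto_add_atTop_nat 1)
  refine tendsto_of_tendsto_of_tendsto_of_le_of_le tendsto_const_nhds h1
    (fun n => sub_nonneg.2 (h.mono n)) ?_
  intro n
  simp only
  rw [le_div_iff₀ (by positivity)]
  have h2 : ∑ k ∈ Finset.range (n + 1), (ent (P (n + 1)) - ent (P n)) ≤
      ∑ k ∈ Finset.range (n + 1), (ent (P (k + 1)) - ent (P k)) := by
    apply Finset.sum_le_sum
    intro k hk
    exact h.antitone (Nat.lt_succ_iff.1 (Finset.mem_range.1 hk))
  rw [Finset.sum_range_sub (fun k => ent (P k)), Finset.sum_const, Finset.card_range, nsmul_eq_mul,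
    h.ent_zero] at h2
  push_cast at h2 ⊢
  linarith

end Pool.Agent.N903.ZE
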