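import Mathlib
import Pool.Agent.N903.ZE.Seq

set_option autoImplicit false
set_option linter.unusedSectionVars false

/-!
# Laws of random variables with finitely many values
-/

namespace Pool.Agent.N903.ZE

open Real Finset Filter Topology MeasureTheory

variable {Ω Ω' : Type*} [MeasurableSpace Ω] [MeasurableSpace Ω']

/-- all level sets are measurable -/
def Lev {α : Type*} (f : Ω → α) : Prop := ∀ a, MeasurableSet (f ⁻¹' {a})

/-- the law -/
noncomputable def law {α : Type*} (μ : Measure Ω) (f : Ω → α) (a : α) : ℝ := μ.real (f ⁻¹' {a})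

theorem law_nonneg {α : Type*} (μ : Measure Ω) (f : Ω → α) (a : α) : 0 ≤ law μ f a :=
  measureReal_nonneg

theorem Lev.comp {α β : Type*} [Fintype α] {f : Ω → α} (hf : Lev f) (φ : α → β) :
    Lev fun x => φ (f x) := by
  intro b
  have h : (fun x => φ (f x)) ⁻¹' {b} = ⋃ a ∈ {a | φ a = b}, f ⁻¹' {a} := by
    ext x; simp
  rw [h]
  exact MeasurableSet.biUnion (Set.to_countable _) fun a _ => hf a

theorem Lev.prod {α β : Type*} {f : Ω → α} {g : Ω → β} (hf : Lev f) (hg : Lev g) :
    Lev fun x => (f x, g x) := by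
  rintro ⟨a, b⟩
  have h : (fun x => (f x, g x)) ⁻¹' {(a, b)} = f ⁻¹' {a} ∩ g ⁻¹' {b} := by
    ext x; simp
  rw [h]
  exact (hf a).inter (hg b)

theorem Lev.comp_measurable {α : Type*} {f : Ω → α} (hf : Lev f) {g : Ω' → Ω} (hg : Measurable g) :
    Lev fun x => f (g x) := fun a => hg (hf a)

theorem law_comp {α β : Type*} [Fintype α] [Fintype β] [DecidableEq β] (μ : Measure Ω)
    [IsFiniteMeasure μ] {f : Ω → α} (hf : Lev f) (φ : α → β) :
    law μ (fun x => φ (f x)) = push φ (law μ f) := by
  classical
  funext b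
  unfold push
  rw [← Finset.sum_filter]
  unfold law
  have h : (fun x => φ (f x)) ⁻¹' {b} = ⋃ a ∈ (Finset.univ.filter fun a => φ a = b), f ⁻¹' {a} := by
    ext x; simp
  rw [h, measureReal_biUnion_finset]
  · intro a _ a' _ hne
    simp only [Function.onFun]
    rw [Set.disjoint_left]
    intro x hx hx'
    exact hne (hx.symm.trans hx')
  · intro a _
    exact hf a

theorem mass_law {α : Type*} [Fintype α] (μ : Measure Ω) [IsProbabilityMeasure μ] {f : Ω → α}
    (hf : Lev f) : mass (law μ f) = 1 := by
  have h := law_comp μ hf (fun _ : α => ())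
  have h1 := mass_push (fun _ : α => ()) (law μ f)
  rw [← h] at h1
  rw [← h1]
  unfold mass law
  simp

theorem law_map {α : Type*} (μ : Measure Ω) {f : Ω' → α} (hf : Lev f) {g : Ω → Ω'}
    (hg : Measurable g) : law (μ.map g) f = law μ fun x => f (g x) := by
  funext a
  unfold law
  rw [map_measureReal_apply hg (hf a)]
  rfl

/-- a variable which is determined up to `K` values -/
theorem ent_law_le {α β : Type*} [Fintype α] [Fintype β] [DecidableEq α] [DecidableEq β]
    (μ : Measure Ω) [IsProbabilityMeasure μ] {f : Ω → α} {g : Ω → β} (hf : Lev f) (hg : Lev g)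
    {K : ℝ} (hK : ∀ b, ∃ S : Finset α, (S.card : ℝ) ≤ K ∧ ∀ x, g x = b → f x ∈ S) :
    ent (law μ f) ≤ ent (law μ g) + log K := by
  classical
  set w := law μ fun x => (f x, g x) with hw
  have hw0 : ∀ z, 0 ≤ w z := law_nonneg _ _
  have h1 : law μ f = push Prod.fst w := law_comp μ (hf.prod hg) Prod.fst
  have h2 : law μ g = push Prod.snd w := law_comp μ (hf.prod hg) Prod.snd
  have h3 : ent (law μ f) ≤ ent w := by
    rw [h1]; exact ent_push_le hw0
  have h4 := ent_sub_push Prod.snd w
  rw [← h2] at h4
  have h5 : ∀ b ∈ (Finset.univ : Finset β), ee (res Prod.snd w b) ≤ mass (res Prod.snd w b) * log K := by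
    intro b _
    unfold ee
    obtain ⟨S₀, hS₀, hS₁⟩ := hK b
    set S := S₀.image (fun a => (a, b)) with hS
    have hz : ∀ z, z ∉ S → res Prod.snd w b z = 0 := by
      rintro ⟨a, b'⟩ hz
      unfold res
      split_ifs with h
      · simp only at h
        subst h
        rw [hw]
        unfold law
        have : (fun x => (f x, g x)) ⁻¹' {(a, b')} = ∅ := by
          ext x
          simp only [Set.mem_preimage, Set.mem_singleton_iff, Prod.mk.injEq, Set.mem_empty_iff_false,
            iff_false, not_and]
          intro hx hx'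
          apply hz
          rw [hS]
          refine Finset.mem_image.2 ⟨a, ?_, rfl⟩
          rw [← hx]
          exact hS₁ x hx'
        rw [this]
        simp
      · rfl
    have hm : mass (res Prod.snd w b) = ∑ z ∈ S, res Prod.snd w b z := by
      unfold mass
      symm
      apply Finset.sum_subset (Finset.subset_univ _)
      intro z _ hz'
      exact hz z hz'
    have he : ent (res Prod.snd w b) = ∑ z ∈ S, negMulLog (res Prod.snd w b z) := by
      unfold ent
      symm
      apply Finset.sum_subset (Finset.subset_univ _)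
      intro z _ hz'
      rw [hz z hz']; simp
    rw [he, hm]
    have h6 := sum_negMulLog_le S (res Prod.snd w b) (fun z _ => res_nonneg hw0 b z) (N := K) (by
      refine le_trans ?_ hS₀
      exact_mod_cast Finset.card_image_le)
    linarith
  have h6 := Finset.sum_le_sum h5
  rw [← Finset.sum_mul] at h6
  have h7 : ∑ b, mass (res Prod.snd w b) = 1 := by
    have := mass_push Prod.snd w
    rw [hw, mass_law μ (hf.prod hg), ← hw] at this
    exact this
  rw [h7, one_mul] at h6
  linarith

/-- independence -/
theorem law_add {G : Type*} [Fintype G] [DecidableEq G] [AddCommGroup G] (μ : Measure Ω)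
    (ν : Measure Ω') [IsProbabilityMeasure μ] [IsProbabilityMeasure ν] {f : Ω → G} {g : Ω' → G}
    (hf : Lev f) (hg : Lev g) :
    law (μ.prod ν) (fun z : Ω × Ω' => f z.1 + g z.2) = cv (law μ f) (law ν g) := by
  classical
  have hfg : Lev fun z : Ω × Ω' => (f z.1, g z.2) :=
    (hf.comp_measurable measurable_fst).prod (hg.comp_measurable measurable_snd)
  have h := law_comp (μ.prod ν) hfg (fun u : G × G => u.1 + u.2)
  rw [h]
  funext c
  unfold push cv
  have h1 : ∀ u ∈ (Finset.univ : Finset (G × G)),
      (if u.1 + u.2 = c then law (μ.prod ν) (fun z : Ω × Ω' => (f z.1, g z.2)) u else 0) =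
      (if u.2 = c - u.1 then law μ f u.1 * law ν g u.2 else 0) := by
    rintro ⟨a, b⟩ _
    have h2 : a + b = c ↔ b = c - a := by
      rw [eq_sub_iff_add_eq, add_comm]
    simp only [h2]
    split_ifs with h3
    · unfold law
      have h4 : (fun z : Ω × Ω' => (f z.1, g z.2)) ⁻¹' {(a, b)} = (f ⁻¹' {a}) ×ˢ (g ⁻¹' {b}) := by
        ext z; simp
      rw [h4, measureReal_prod_prod]
    · rfl
  rw [Finset.sum_congr rfl h1, Fintype.sum_prod_type]
  apply Finset.sum_congr rfl
  intro a _
  simp

/-- subadditivity -/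
theorem ent_cv_le {G : Type*} [Fintype G] [DecidableEq G] [AddCommGroup G] {P Q : G → ℝ}
    (hP : ∀ x, 0 ≤ P x) (hQ : ∀ x, 0 ≤ Q x) (hmP : mass P = 1) (hmQ : mass Q = 1) :
    ent (cv P Q) ≤ ent P + ent Q := by
  classical
  have h1 : cv P Q = push (fun u : G × G => u.1 + u.2) (fun u => P u.1 * Q u.2) := by
    funext c
    unfold cv push
    rw [Fintype.sum_prod_type]
    apply Finset.sum_congr rfl
    intro a _
    have h2 : ∀ b : G, a + b = c ↔ b = c - a := by
      intro b
      rw [eq_sub_iff_add_eq, add_comm]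
    simp only [h2]
    simp
  rw [h1]
  refine (ent_push_le fun u => mul_nonneg (hP _) (hQ _)).trans (le_of_eq ?_)
  unfold ent
  rw [Fintype.sum_prod_type]
  have h2 : ∀ a ∈ (Finset.univ : Finset G), ∑ b, negMulLog (P a * Q b) =
      negMulLog (P a) + P a * ∑ b, negMulLog (Q b) := by
    intro a _
    have h3 : ∀ b ∈ (Finset.univ : Finset G), negMulLog (P a * Q b) =
        Q b * negMulLog (P a) + P a * negMulLog (Q b) := fun b _ => negMulLog_mul _ _
    rw [Finset.sum_congr rfl h3, Finset.sum_add_distrib, ← Finset.sum_mul, ← Finset.mul_sum]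
    have : ∑ b, Q b = 1 := hmQ
    rw [this, one_mul]
  rw [Finset.sum_congr rfl h2, Finset.sum_add_distrib, ← Finset.sum_mul]
  have : ∑ b, P b = 1 := hmP
  rw [this, one_mul]

end Pool.Agent.N903.ZE
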