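import Mathlib
import Pool.Agent.N903.ZE.Rv

set_option autoImplicit false
set_option linter.unusedSectionVars false

/-!
# The digits of a point of the circle
-/

namespace Pool.Agent.N903.ZE

open Real Finset Filter Topology MeasureTheory

variable {p : ℕ} [NeZero p]

/-- the first `n` digits of a real number modulo one, as an element of `ZMod (p ^ n)` -/
noncomputable def dgR (p n : ℕ) (t : ℝ) : ZMod (p ^ n) := ((⌊(p : ℝ) ^ n * t⌋ : ℤ) : ZMod (p ^ n))

theorem dgR_periodic (p n : ℕ) : Function.Periodic (dgR p n) 1 := by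
  intro t
  unfold dgR
  have h : (p : ℝ) ^ n * (t + 1) = (p : ℝ) ^ n * t + ((p ^ n : ℕ) : ℤ) := by push_cast; ring
  rw [h, Int.floor_add_intCast]
  push_cast
  have : ((p : ZMod (p ^ n)) ^ n) = 0 := by
    have h2 : (((p ^ n : ℕ)) : ZMod (p ^ n)) = 0 := ZMod.natCast_self _
    push_cast at h2
    exact h2
  rw [this, add_zero]

/-- the first `n` digits of a point of the circle -/
noncomputable def dg (p n : ℕ) : UnitAddCircle → ZMod (p ^ n) := (dgR_periodic p n).lift

theorem dg_coe (n : ℕ) (t : ℝ) :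
    dg p n (t : UnitAddCircle) = ((⌊(p : ℝ) ^ n * t⌋ : ℤ) : ZMod (p ^ n)) :=
  (dgR_periodic p n).lift_coe t

theorem lead_dg (n : ℕ) (x : UnitAddCircle) : lead p n (dg p (n + 1) x) = dg p n x := by
  induction x using QuotientAddGroup.induction_on with
  | H t =>
    have e1 := dg_coe (p := p) (n + 1) t
    have e2 := dg_coe (p := p) n t
    rw [e1, e2, lead_intCast]
    congr 1
    have hp : (p : ℝ) ≠ 0 := by exact_mod_cast NeZero.ne p
    rw [← Int.floor_div_natCast]
    congr 1
    field_simp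
    ring

theorem low_dg (n : ℕ) (x : UnitAddCircle) : low p n (dg p (n + 1) x) = dg p n (p • x) := by
  induction x using QuotientAddGroup.induction_on with
  | H t =>
    have e1 := dg_coe (p := p) (n + 1) t
    have e2 := dg_coe (p := p) n (p • t)
    rw [AddCircle.coe_nsmul] at e2
    rw [e1, e2, low_intCast]
    congr 2
    rw [nsmul_eq_mul]
    ring

theorem dg_add (n : ℕ) (x y : UnitAddCircle) :
    dg p n (x + y) = dg p n x + dg p n y ∨ dg p n (x + y) = dg p n x + dg p n y + 1 := by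
  induction x using QuotientAddGroup.induction_on with
  | H s =>
    induction y using QuotientAddGroup.induction_on with
    | H t =>
      have e1 := dg_coe (p := p) n s
      have e2 := dg_coe (p := p) n t
      have e3 := dg_coe (p := p) n (s + t)
      rw [AddCircle.coe_add] at e3
      rw [e1, e2, e3, mul_add]
      have h1 := Int.le_floor_add ((p : ℝ) ^ n * s) ((p : ℝ) ^ n * t)
      have h2 := Int.le_floor_add_floor ((p : ℝ) ^ n * s) ((p : ℝ) ^ n * t)
      have h3 : ⌊(p : ℝ) ^ n * s + (p : ℝ) ^ n * t⌋ = ⌊(p : ℝ) ^ n * s⌋ + ⌊(p : ℝ) ^ n * t⌋ ∨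
          ⌊(p : ℝ) ^ n * s + (p : ℝ) ^ n * t⌋ = ⌊(p : ℝ) ^ n * s⌋ + ⌊(p : ℝ) ^ n * t⌋ + 1 := by omega
      rcases h3 with h | h
      · left; rw [h]; push_cast; ring
      · right; rw [h]; push_cast; ring

theorem dg_zsmul (n : ℕ) (a : ℤ) (x : UnitAddCircle) :
    ∃ i ∈ Finset.Icc (-(a.natAbs : ℤ)) a.natAbs, dg p n (a • x) = a * dg p n x + i := by
  induction x using QuotientAddGroup.induction_on with
  | H t =>
    have e1 := dg_coe (p := p) n t
    have e2 := dg_coe (p := p) n (a • t)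
    rw [AddCircle.coe_zsmul] at e2
    refine ⟨⌊(p : ℝ) ^ n * (a • t)⌋ - a * ⌊(p : ℝ) ^ n * t⌋, ?_, ?_⟩
    · set m := ⌊(p : ℝ) ^ n * t⌋ with hm
      set θ := (p : ℝ) ^ n * t - m with hθ
      have hθ0 : 0 ≤ θ := sub_nonneg.2 (Int.floor_le _)
      have hθ1 : θ < 1 := by
        have := Int.lt_floor_add_one ((p : ℝ) ^ n * t)
        rw [hθ]; linarith
      have h1 : (p : ℝ) ^ n * (a • t) = (a : ℝ) * θ + ((a * m : ℤ) : ℝ) := by
        rw [zsmul_eq_mul, hθ]; push_cast; ring
      rw [h1, Int.floor_add_intCast]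
      have hab : |(a : ℝ)| = (a.natAbs : ℝ) := by
        rw [Nat.cast_natAbs]; push_cast; rfl
      have h2 : |(a : ℝ) * θ| ≤ (a.natAbs : ℝ) := by
        rw [abs_mul, hab, abs_of_nonneg hθ0]
        nlinarith [Nat.cast_nonneg (α := ℝ) a.natAbs]
      rw [abs_le] at h2
      rw [Finset.mem_Icc]
      constructor
      · have : -(a.natAbs : ℤ) ≤ ⌊(a : ℝ) * θ⌋ := by
          rw [Int.le_floor]
          have h5 := h2.1
          rw [← hab] at h5
          push_cast
          exact h5
        linarith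
      · have : ⌊(a : ℝ) * θ⌋ ≤ (a.natAbs : ℤ) := by
          have h3 := Int.floor_mono h2.2
          rw [Int.floor_natCast] at h3
          exact h3
        linarith
    · rw [e1, e2]
      push_cast
      ring

theorem lev_dg (n : ℕ) : Lev (dg p n) := by
  intro j
  have h1 : MeasurableSet {t : ℝ | dgR p n t = j} := by
    unfold dgR
    have h2 : Measurable fun t : ℝ => ⌊(p : ℝ) ^ n * t⌋ := by fun_prop
    exact h2 (MeasurableSet.of_discrete (s := {m : ℤ | (m : ZMod (p ^ n)) = j}))
  have e := AddCircle.measurableEquivIco (1 : ℝ) 0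
  have h3 : MeasurableSet ((AddCircle.measurableEquivIco (1 : ℝ) 0).symm ⁻¹' (dg p n ⁻¹' {j})) := by
    have h4 : (AddCircle.measurableEquivIco (1 : ℝ) 0).symm ⁻¹' (dg p n ⁻¹' {j}) =
        (fun t : Set.Ico (0 : ℝ) (0 + 1) => (t : ℝ)) ⁻¹' {t : ℝ | dgR p n t = j} := by
      ext t
      rfl
    rw [h4]
    exact measurable_subtype_coe h1
  exact (MeasurableEquiv.measurableSet_preimage _).1 h3

theorem dg_preimage (n : ℕ) (j : ℕ) (hj : j < p ^ n) : dg p n ⁻¹' {(j : ZMod (p ^ n))} =
    (fun t : ℝ => (t : UnitAddCircle)) '' Set.Ico ((j : ℝ) / (p : ℝ) ^ n) (((j : ℝ) + 1) / (p : ℝ) ^ n) := by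
  have hp : 0 < (p : ℝ) ^ n := by
    have : 0 < (p : ℝ) := by exact_mod_cast Nat.pos_of_ne_zero (NeZero.ne p)
    positivity
  ext x
  constructor
  · intro hx
    induction x using QuotientAddGroup.induction_on with
    | H t =>
      have e1 := dg_coe (p := p) n (Int.fract t)
      have e2 : ((Int.fract t : ℝ) : UnitAddCircle) = (t : UnitAddCircle) := AddCircle.coe_fract t
      rw [e2] at e1
      rw [Set.mem_preimage, Set.mem_singleton_iff] at hx
      refine ⟨Int.fract t, ?_, e2⟩
      have h1 : ((⌊(p : ℝ) ^ n * Int.fract t⌋ : ℤ) : ZMod (p ^ n)) = ((j : ℤ) : ZMod (p ^ n)) := by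
        rw [← e1, Int.cast_natCast]; exact hx
      have h2 : 0 ≤ ⌊(p : ℝ) ^ n * Int.fract t⌋ :=
        Int.floor_nonneg.2 (mul_nonneg hp.le (Int.fract_nonneg t))
      have h3 : ⌊(p : ℝ) ^ n * Int.fract t⌋ < (p ^ n : ℕ) := by
        rw [Int.floor_lt]
        push_cast
        have := Int.fract_lt_one t
        nlinarith
      rw [ZMod.intCast_eq_intCast_iff'] at h1
      rw [Int.emod_eq_of_lt h2 h3, Int.emod_eq_of_lt (by positivity) (by exact_mod_cast hj)] at h1
      rw [Int.floor_eq_iff] at h1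
      rw [Set.mem_Ico, div_le_iff₀ hp, lt_div_iff₀ hp]
      push_cast at h1
      constructor
      · linarith [h1.1]
      · linarith [h1.2]
  · rintro ⟨t, ht, rfl⟩
    rw [Set.mem_preimage, Set.mem_singleton_iff, dg_coe]
    have h1 : ⌊(p : ℝ) ^ n * t⌋ = (j : ℤ) := by
      rw [Int.floor_eq_iff]
      rw [Set.mem_Ico, div_le_iff₀ hp, lt_div_iff₀ hp] at ht
      constructor
      · push_cast; linarith [ht.1]
      · push_cast; linarith [ht.2]
    rw [h1]
    simp

end Pool.Agent.N903.ZE
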