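import Mathlib
import Pool.Agent.N903.ZE.Circle

set_option autoImplicit false
set_option linter.unusedSectionVars false

/-!
# Invariant measures on the circle, their convolutions and dilates
-/

namespace Pool.Agent.N903.ZE

open Real Finset Filter Topology MeasureTheory

variable {p : ℕ} [NeZero p]

/-- the entropy of the first `n` digits -/
noncomputable def HH (p : ℕ) [NeZero p] (n : ℕ) (μ : Measure UnitAddCircle) : ℝ :=
  ent (law μ (dg p n))

theorem inv_of_invariant {μ : Measure UnitAddCircle} [IsProbabilityMeasure μ]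
    (h : MeasurePreserving (fun x : UnitAddCircle => p • x) μ μ) :
    Inv (p := p) (fun n => law μ (dg p n)) where
  nonneg n x := law_nonneg _ _ _
  mass_one n := mass_law μ (lev_dg n)
  push_low n := by
    rw [← law_comp μ (lev_dg (n + 1)) (low p n)]
    have h1 : (fun x => low p n (dg p (n + 1) x)) = fun x => dg p n (p • x) :=
      funext fun x => low_dg n x
    rw [h1, ← law_map μ (lev_dg n) h.measurable, h.map_eq]
  push_lead n := by
    rw [← law_comp μ (lev_dg (n + 1)) (lead p n)]
    congr 1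
    exact funext fun x => lead_dg n x

theorem HH_nonneg (n : ℕ) (μ : Measure UnitAddCircle) [IsProbabilityMeasure μ] : 0 ≤ HH p n μ := by
  have h1 := mass_law μ (lev_dg (p := p) n)
  refine ent_nonneg (law_nonneg _ _) fun x => ?_
  have h2 := le_mass (law_nonneg μ (dg p n)) x
  rwa [h1] at h2

/-- the law of the sum of independent points -/
noncomputable def cvm (μ ν : Measure UnitAddCircle) : Measure UnitAddCircle :=
  (μ.prod ν).map fun z : UnitAddCircle × UnitAddCircle => z.1 + z.2

theorem cvm_comp (n : ℕ) (μ ν : Measure UnitAddCircle) [IsProbabilityMeasure μ]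
    [IsProbabilityMeasure ν] :
    HH p n (cvm μ ν) ≤ ent (cv (law μ (dg p n)) (law ν (dg p n))) + log 2 ∧
    ent (cv (law μ (dg p n)) (law ν (dg p n))) ≤ HH p n (cvm μ ν) + log 2 := by
  classical
  have hm : Measurable fun z : UnitAddCircle × UnitAddCircle => z.1 + z.2 := by fun_prop
  have h1 : HH p n (cvm μ ν) = ent (law (μ.prod ν) fun z => dg p n (z.1 + z.2)) := by
    unfold HH cvm
    rw [law_map _ (lev_dg n) hm]
  rw [h1, ← law_add μ ν (lev_dg n) (lev_dg n)]
  have l1 : Lev fun z : UnitAddCircle × UnitAddCircle => dg p n (z.1 + z.2) :=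
    (lev_dg n).comp_measurable hm
  have l2 : Lev fun z : UnitAddCircle × UnitAddCircle => dg p n z.1 + dg p n z.2 :=
    (((lev_dg n).comp_measurable measurable_fst).prod
      ((lev_dg n).comp_measurable measurable_snd)).comp (fun u : ZMod (p ^ n) × ZMod (p ^ n) => u.1 + u.2)
  constructor
  · apply ent_law_le _ l1 l2
    intro b
    refine ⟨{b, b + 1}, ?_, ?_⟩
    · exact_mod_cast Finset.card_le_two
    · intro x hx
      rw [Finset.mem_insert, Finset.mem_singleton]
      rcases dg_add (p := p) n x.1 x.2 with h | h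
      · left; rw [h, hx]
      · right; rw [h, hx]
  · apply ent_law_le _ l2 l1
    intro b
    refine ⟨{b, b - 1}, ?_, ?_⟩
    · exact_mod_cast Finset.card_le_two
    · intro x hx
      rw [Finset.mem_insert, Finset.mem_singleton]
      rcases dg_add (p := p) n x.1 x.2 with h | h
      · left; rw [← h, hx]
      · right; rw [eq_sub_iff_add_eq, ← h, hx]

theorem cvm_invariant {μ ν : Measure UnitAddCircle} [IsProbabilityMeasure μ] [IsProbabilityMeasure ν]
    (hμ : MeasurePreserving (fun x : UnitAddCircle => p • x) μ μ)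
    (hν : MeasurePreserving (fun x : UnitAddCircle => p • x) ν ν) :
    MeasurePreserving (fun x : UnitAddCircle => p • x) (cvm μ ν) (cvm μ ν) := by
  have hm : Measurable fun z : UnitAddCircle × UnitAddCircle => z.1 + z.2 := by fun_prop
  refine ⟨hμ.measurable, ?_⟩
  unfold cvm
  rw [Measure.map_map hμ.measurable hm]
  have h1 : ((fun x : UnitAddCircle => p • x) ∘ fun z : UnitAddCircle × UnitAddCircle => z.1 + z.2) =
      (fun z : UnitAddCircle × UnitAddCircle => z.1 + z.2) ∘
        (Prod.map (fun x : UnitAddCircle => p • x) fun x : UnitAddCircle => p • x) := by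
    funext z
    simp only [Function.comp_apply, Prod.map_fst, Prod.map_snd, smul_add]
  rw [h1, ← Measure.map_map hm (hμ.prod hν).measurable, (hμ.prod hν).map_eq]

theorem cvm_prob {μ ν : Measure UnitAddCircle} [IsProbabilityMeasure μ] [IsProbabilityMeasure ν] :
    IsProbabilityMeasure (cvm μ ν) := by
  have hm : Measurable fun z : UnitAddCircle × UnitAddCircle => z.1 + z.2 := by fun_prop
  exact Measure.isProbabilityMeasure_map hm.aemeasurable

theorem cvm_upper (n : ℕ) (μ ν : Measure UnitAddCircle) [IsProbabilityMeasure μ]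
    [IsProbabilityMeasure ν] : HH p n (cvm μ ν) ≤ HH p n μ + HH p n ν + log 2 := by
  have h1 := (cvm_comp (p := p) n μ ν).1
  have h2 := ent_cv_le (law_nonneg μ (dg p n)) (law_nonneg ν (dg p n)) (mass_law μ (lev_dg n))
    (mass_law ν (lev_dg n))
  unfold HH at *
  linarith

/-- zero entropy -/
def Zero (p : ℕ) [NeZero p] (μ : Measure UnitAddCircle) : Prop :=
  Tendsto (fun n : ℕ => HH p n μ / n) atTop (𝓝 0)

theorem cvm_lower {μ ν : Measure UnitAddCircle} [IsProbabilityMeasure μ] [IsProbabilityMeasure ν]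
    (hμ : MeasurePreserving (fun x : UnitAddCircle => p • x) μ μ)
    (hν : MeasurePreserving (fun x : UnitAddCircle => p • x) ν ν) (hz : Zero p μ) {ε : ℝ}
    (hε : 0 < ε) :
    ∃ C : ℝ, 0 ≤ C ∧ ∀ n, (1 - ε) * (HH p n μ + HH p n ν) - C ≤ HH p n (cvm μ ν) := by
  obtain ⟨C, hC, h⟩ := seq2 (inv_of_invariant hμ).toFam (inv_of_invariant hν).toFam
    ((inv_of_invariant hμ).tendsto hz) hε
  refine ⟨C + log 2, add_nonneg hC (Real.log_nonneg (by norm_num)), fun n => ?_⟩
  have h1 := (cvm_comp (p := p) n μ ν).2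
  have h2 := h n
  unfold HH at *
  linarith

section dilate

/-- the dilate -/
noncomputable def dil (a : ℤ) (μ : Measure UnitAddCircle) : Measure UnitAddCircle :=
  μ.map fun x : UnitAddCircle => a • x

theorem meas_zsmul (a : ℤ) : Measurable fun x : UnitAddCircle => a • x :=
  (continuous_zsmul a).measurable

theorem dil_prob (a : ℤ) {μ : Measure UnitAddCircle} [IsProbabilityMeasure μ] :
    IsProbabilityMeasure (dil a μ) :=
  Measure.isProbabilityMeasure_map (meas_zsmul a).aemeasurable

theorem dil_invariant (a : ℤ) {μ : Measure UnitAddCircle}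
    (hμ : MeasurePreserving (fun x : UnitAddCircle => p • x) μ μ) :
    MeasurePreserving (fun x : UnitAddCircle => p • x) (dil a μ) (dil a μ) := by
  refine ⟨hμ.measurable, ?_⟩
  unfold dil
  rw [Measure.map_map hμ.measurable (meas_zsmul a)]
  have h1 : ((fun x : UnitAddCircle => p • x) ∘ fun x : UnitAddCircle => a • x) =
      (fun x : UnitAddCircle => a • x) ∘ (fun x : UnitAddCircle => p • x) := by
    funext z
    simp only [Function.comp_apply]
    rw [smul_comm]
  rw [h1, ← Measure.map_map (meas_zsmul a) hμ.measurable, hμ.map_eq]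

theorem card_mul_eq (n : ℕ) {a : ℤ} (ha : a ≠ 0) (c : ZMod (p ^ n)) :
    (Finset.univ.filter fun b : ZMod (p ^ n) => (a : ZMod (p ^ n)) * b = c).card ≤ a.natAbs := by
  classical
  have h0 := IsAddCyclic.card_nsmul_eq_zero_le (α := ZMod (p ^ n)) (n := a.natAbs)
    (Int.natAbs_pos.2 ha)
  rcases (Finset.univ.filter fun b : ZMod (p ^ n) => (a : ZMod (p ^ n)) * b = c).eq_empty_or_nonempty
    with h | ⟨b₀, hb₀⟩
  · rw [h]; simp
  · refine le_trans ?_ h0
    apply Finset.card_le_card_of_injOn (fun b => b - b₀)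
    · intro b hb
      have hb1 : (a : ZMod (p ^ n)) * b = c := by simpa using hb
      have hb2 : (a : ZMod (p ^ n)) * b₀ = c := by simpa using hb₀
      have h1 : (a : ZMod (p ^ n)) * (b - b₀) = 0 := by rw [mul_sub, hb1, hb2, sub_self]
      have h2 : a.natAbs • (b - b₀) = 0 := by
        rw [nsmul_eq_mul]
        rcases Int.natAbs_eq a with h | h
        · have h3 : (a : ZMod (p ^ n)) = ((a.natAbs : ℕ) : ZMod (p ^ n)) := by
            conv_lhs => rw [h]
            exact Int.cast_natCast _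
          rw [h3] at h1
          exact h1
        · have h3 : (a : ZMod (p ^ n)) = -((a.natAbs : ℕ) : ZMod (p ^ n)) := by
            conv_lhs => rw [h]
            rw [Int.cast_neg, Int.cast_natCast]
          rw [h3, neg_mul, neg_eq_zero] at h1
          exact h1
      simpa using h2
    · intro b _ b' _ h
      exact sub_left_injective h

theorem dil_comp (n : ℕ) {a : ℤ} (ha : a ≠ 0) (μ : Measure UnitAddCircle) [IsProbabilityMeasure μ] :
    HH p n (dil a μ) ≤ HH p n μ + log ((2 * a.natAbs + 1) * a.natAbs) ∧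
    HH p n μ ≤ HH p n (dil a μ) + log ((2 * a.natAbs + 1) * a.natAbs) := by
  classical
  have hA : (1 : ℝ) ≤ a.natAbs := by exact_mod_cast Int.natAbs_pos.2 ha
  have hcard : (Finset.Icc (-(a.natAbs : ℤ)) a.natAbs).card = 2 * a.natAbs + 1 := by
    rw [Int.card_Icc]; omega
  have h1 : HH p n (dil a μ) = ent (law μ fun x => dg p n (a • x)) := by
    unfold HH dil
    rw [law_map _ (lev_dg n) (meas_zsmul a)]
  rw [h1]
  unfold HH
  have l1 : Lev fun x : UnitAddCircle => dg p n (a • x) := (lev_dg n).comp_measurable (meas_zsmul a)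
  constructor
  · apply ent_law_le _ l1 (lev_dg n)
    intro b
    refine ⟨(Finset.Icc (-(a.natAbs : ℤ)) a.natAbs).image fun i : ℤ =>
      (a : ZMod (p ^ n)) * b + (i : ZMod (p ^ n)), ?_, ?_⟩
    · have h2 : ((Finset.Icc (-(a.natAbs : ℤ)) a.natAbs).image fun i : ℤ =>
          (a : ZMod (p ^ n)) * b + i).card ≤ 2 * a.natAbs + 1 := hcard ▸ Finset.card_image_le
      have h3 : (((Finset.Icc (-(a.natAbs : ℤ)) a.natAbs).image fun i : ℤ =>
          (a : ZMod (p ^ n)) * b + i).card : ℝ) ≤ 2 * a.natAbs + 1 := by exact_mod_cast h2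
      nlinarith
    · intro x hx
      obtain ⟨i, hi, h⟩ := dg_zsmul (p := p) n a x
      rw [h, hx]
      exact Finset.mem_image.2 ⟨i, hi, rfl⟩
  · apply ent_law_le _ (lev_dg n) l1
    intro c
    refine ⟨(Finset.Icc (-(a.natAbs : ℤ)) a.natAbs).biUnion fun i =>
      Finset.univ.filter fun b : ZMod (p ^ n) => (a : ZMod (p ^ n)) * b = c - i, ?_, ?_⟩
    · have h2 := Finset.card_biUnion_le_card_mul (Finset.Icc (-(a.natAbs : ℤ)) a.natAbs)
        (fun i => Finset.univ.filter fun b : ZMod (p ^ n) => (a : ZMod (p ^ n)) * b = c - i) a.natAbs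
        (fun i _ => card_mul_eq n ha _)
      rw [hcard] at h2
      exact_mod_cast h2
    · intro x hx
      obtain ⟨i, hi, h⟩ := dg_zsmul (p := p) n a x
      rw [Finset.mem_biUnion]
      refine ⟨i, hi, ?_⟩
      rw [Finset.mem_filter]
      refine ⟨Finset.mem_univ _, ?_⟩
      rw [eq_sub_iff_add_eq, ← h, hx]

theorem dil_zero {a : ℤ} (ha : a ≠ 0) {μ : Measure UnitAddCircle} [IsProbabilityMeasure μ]
    (hz : Zero p μ) : Zero p (dil a μ) := by
  have := dil_prob a (μ := μ)
  unfold Zero at *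
  have h1 : Tendsto (fun n : ℕ => HH p n μ / n + log ((2 * a.natAbs + 1) * a.natAbs) / n) atTop
      (𝓝 (0 + 0)) := hz.add (tendsto_const_div_atTop_nhds_zero_nat _)
  rw [add_zero] at h1
  refine tendsto_of_tendsto_of_tendsto_of_le_of_le tendsto_const_nhds h1 ?_ ?_
  · intro n
    exact div_nonneg (HH_nonneg n _) (Nat.cast_nonneg n)
  · intro n
    simp only
    rw [← add_div]
    exact div_le_div_of_nonneg_right (dil_comp n ha μ).1 (Nat.cast_nonneg n)

end dilate

section atomless

theorem norm_coe_le (t : ℝ) : ‖(t : UnitAddCircle)‖ ≤ |t| := by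
  exact QuotientAddGroup.norm_mk_le_norm (S := AddSubgroup.zmultiples (1 : ℝ)) (m := t)

theorem exists_small {μ : Measure UnitAddCircle} [IsProbabilityMeasure μ] (h : ∀ x, μ {x} = 0)
    (hp : 2 ≤ p) {δ : ℝ} (hδ : 0 < δ) : ∃ N, ∀ n, N ≤ n → ∀ j, law μ (dg p n) j ≤ δ := by
  have h1 : ∀ x : UnitAddCircle, ∃ U ⊇ {x}, IsOpen U ∧ μ U < ENNReal.ofReal δ := by
    intro x
    apply Set.exists_isOpen_lt_of_lt
    rw [h x]
    exact ENNReal.ofReal_pos.2 hδ
  choose U hU1 hU2 hU3 using h1
  obtain ⟨r, hr, hball⟩ := lebesgue_number_lemma_of_metric (s := (Set.univ : Set UnitAddCircle))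
    isCompact_univ hU2 (fun x _ => Set.mem_iUnion.2 ⟨x, hU1 x rfl⟩)
  have hp1 : (1 : ℝ) < p := by exact_mod_cast hp
  obtain ⟨N, hN⟩ := pow_unbounded_of_one_lt (1 / r) hp1
  refine ⟨N, fun n hn j => ?_⟩
  have hpn : 1 / r < (p : ℝ) ^ n := lt_of_lt_of_le hN (pow_le_pow_right₀ hp1.le hn)
  have hpn0 : (0 : ℝ) < (p : ℝ) ^ n := by positivity
  set i := j.val with hi
  have hj : j = (i : ZMod (p ^ n)) := by rw [hi]; simp
  have hlt : i < p ^ n := ZMod.val_lt j
  set x : UnitAddCircle := (((i : ℝ) / (p : ℝ) ^ n : ℝ) : UnitAddCircle) with hx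
  obtain ⟨y, hy⟩ := hball x (Set.mem_univ _)
  have hsub : dg p n ⁻¹' {j} ⊆ U y := by
    rw [hj, dg_preimage n i hlt]
    rintro z ⟨t, ht, rfl⟩
    apply hy
    rw [Metric.mem_ball, hx, dist_eq_norm, ← AddCircle.coe_sub]
    refine lt_of_le_of_lt (norm_coe_le _) ?_
    rw [Set.mem_Ico] at ht
    rw [abs_of_nonneg (by linarith [ht.1])]
    have h2 : 1 / (p : ℝ) ^ n < r := by
      rw [div_lt_iff₀ hpn0]
      rw [div_lt_iff₀ hr] at hpn
      linarith
    have h3 : ((i : ℝ) + 1) / (p : ℝ) ^ n = (i : ℝ) / (p : ℝ) ^ n + 1 / (p : ℝ) ^ n := add_div _ _ _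
    linarith [ht.2]
  have h2 : μ (dg p n ⁻¹' {j}) ≤ ENNReal.ofReal δ := (measure_mono hsub).trans (hU3 y).le
  unfold law Measure.real
  exact ENNReal.toReal_le_of_le_ofReal hδ.le h2

theorem tendsto_HH {μ : Measure UnitAddCircle} [IsProbabilityMeasure μ] (h : ∀ x, μ {x} = 0)
    (hp : 2 ≤ p) : Tendsto (fun n => HH p n μ) atTop atTop := by
  rw [tendsto_atTop]
  intro b
  obtain ⟨N, hN⟩ := exists_small (p := p) h hp (exp_pos (-b))
  filter_upwards [eventually_ge_atTop N] with n hn
  unfold HH ent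
  have h1 : mass (law μ (dg p n)) = 1 := mass_law μ (lev_dg n)
  calc b = ∑ x, law μ (dg p n) x * b := by
        rw [← Finset.sum_mul]; unfold mass at h1; rw [h1, one_mul]
    _ ≤ ∑ x, negMulLog (law μ (dg p n) x) := by
        apply Finset.sum_le_sum
        intro x _
        unfold negMulLog
        rcases (law_nonneg μ (dg p n) x).eq_or_lt with h0 | h0
        · rw [← h0]; simp
        · have h2 := Real.log_le_log h0 (hN n hn x)
          rw [Real.log_exp] at h2
          nlinarith

end atomless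

end Pool.Agent.N903.ZE
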